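import Mathlib

set_option autoImplicit false

open Set Filter Topology

namespace Pool.Agent.H490R3.Sec

/-- local affine support at `t` -/
def LS (f : ℝ → ℝ) (t : ℝ) : Prop := ∃ p : ℝ, ∀ᶠ s in 𝓝 t, f t + p * (s - t) ≤ f s

/-- global affine supports everywhere (convexity of a finite function on the line) -/
def Cvx (n : ℝ → ℝ) : Prop := ∀ s₀, ∃ α : ℝ, ∀ s, n s₀ + α * (s - s₀) ≤ n s

theorem le_chord {f : ℝ → ℝ} (hc : ContinuousOn f (Icc 0 1)) (h : ∀ t ∈ Ioo (0:ℝ) 1, LS f t) :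
    ∀ t ∈ Icc (0:ℝ) 1, f t ≤ (1 - t) * f 0 + t * f 1 := by
  set F : ℝ → ℝ := fun t => f t - ((1 - t) * f 0 + t * f 1) with hF
  have hFc : ContinuousOn F (Icc 0 1) := by
    apply hc.sub
    fun_prop
  obtain ⟨t₀, ht₀, hmax⟩ := isCompact_Icc.exists_isMaxOn (nonempty_Icc.mpr zero_le_one) hFc
  by_contra hcon
  push Not at hcon
  obtain ⟨t, ht, hlt⟩ := hcon
  have hpos : 0 < F t₀ := by
    have h1 : F t ≤ F t₀ := hmax ht
    have h2 : 0 < F t := by simp only [hF]; linarith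
    linarith
  set A : Set ℝ := {t | t ∈ Icc (0:ℝ) 1 ∧ F t₀ ≤ F t} with hA
  have hAc : IsCompact A := by
    have : A = Icc (0:ℝ) 1 ∩ F ⁻¹' (Ici (F t₀)) := by ext x; simp [hA]
    rw [this]
    exact isCompact_Icc.of_isClosed_subset
      (hFc.preimage_isClosed_of_isClosed isClosed_Icc isClosed_Ici) inter_subset_left
  have hAne : A.Nonempty := ⟨t₀, ht₀, le_rfl⟩
  obtain ⟨t₁, ht₁, hmin⟩ := hAc.exists_isLeast hAne
  have hF0 : F 0 = 0 := by simp [hF]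
  have hF1 : F 1 = 0 := by simp [hF]
  have h0 : t₁ ≠ 0 := by
    rintro rfl
    have := ht₁.2
    linarith
  have h1 : t₁ ≠ 1 := by
    rintro rfl
    have := ht₁.2
    linarith
  have ht₁' : t₁ ∈ Ioo (0:ℝ) 1 := ⟨lt_of_le_of_ne ht₁.1.1 (Ne.symm h0), lt_of_le_of_ne ht₁.1.2 h1⟩
  obtain ⟨p, hp⟩ := h t₁ ht₁'
  have hnb : ∀ᶠ s in 𝓝 t₁, s ∈ Ioo (0:ℝ) 1 := Ioo_mem_nhds ht₁'.1 ht₁'.2
  obtain ⟨ε, hε, hball⟩ := Metric.eventually_nhds_iff.mp (hp.and hnb)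
  set q : ℝ := p + f 0 - f 1 with hq
  have key : ∀ s, dist s t₁ < ε → F t₁ + q * (s - t₁) ≤ F s ∧ F s ≤ F t₁ := by
    intro s hs
    obtain ⟨h2, h3⟩ := hball hs
    refine ⟨?_, ?_⟩
    · simp only [hF, hq]; nlinarith
    · have h4 : F s ≤ F t₀ := hmax ⟨h3.1.le, h3.2.le⟩
      exact h4.trans ht₁.2
  have k1 := key (t₁ + ε / 2) (by rw [Real.dist_eq]; rw [abs_of_nonneg] <;> linarith)
  have k2 := key (t₁ - ε / 2) (by rw [Real.dist_eq, abs_sub_comm]; rw [abs_of_nonneg] <;> linarith)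
  have hq0 : q = 0 := by
    have e1 : q * (ε / 2) ≤ 0 := by nlinarith [k1.1, k1.2]
    have e2 : 0 ≤ q * (ε / 2) := by nlinarith [k2.1, k2.2]
    have e3 : q * (ε / 2) = 0 := le_antisymm e1 e2
    rcases mul_eq_zero.mp e3 with h | h
    · exact h
    · linarith
  have hmem : t₁ - ε / 2 ∈ A := by
    obtain ⟨h2, h3⟩ := hball (y := t₁ - ε / 2) (by
      rw [Real.dist_eq, abs_sub_comm]; rw [abs_of_nonneg] <;> linarith)
    refine ⟨⟨h3.1.le, h3.2.le⟩, ?_⟩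
    have h5 := k2.1
    rw [hq0] at h5
    have := ht₁.2
    linarith
  have := hmin hmem
  linarith

theorem LS.congr {f g : ℝ → ℝ} {t : ℝ} (h : LS f t) (hfg : f =ᶠ[𝓝 t] g) : LS g t := by
  obtain ⟨p, hp⟩ := h
  refine ⟨p, ?_⟩
  filter_upwards [hp, hfg] with s h1 h2
  rw [← h2, ← hfg.eq_of_nhds]
  exact h1

theorem Cvx.ls {n : ℝ → ℝ} (h : Cvx n) (t : ℝ) : LS n t := by
  obtain ⟨α, hα⟩ := h t
  exact ⟨α, Eventually.of_forall hα⟩

theorem LS.of_le {f g : ℝ → ℝ} {t : ℝ} (h : LS f t) (h1 : f t = g t) (h2 : ∀ᶠ s in 𝓝 t, f s ≤ g s) :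
    LS g t := by
  obtain ⟨p, hp⟩ := h
  refine ⟨p, ?_⟩
  filter_upwards [hp, h2] with s h3 h4
  rw [← h1]
  exact h3.trans h4

theorem ls_affine (a b t : ℝ) : LS (fun s => a + b * s) t :=
  ⟨b, Eventually.of_forall fun s => by ring_nf; exact le_rfl⟩

/-- The algebraic inequality. -/
theorem star_ineq {p1 p2 p X1 X2 Y : ℝ} (hX1 : 0 < X1) (hX2 : 0 < X2) (hY : 0 < Y)
    (h : p1 * p2 * (X1 - X2) ^ 2 * Y ≤ p * p1 * (X1 - Y) ^ 2 * X2 + p * p2 * (X2 - Y) ^ 2 * X1) :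
    (p1 * X1 + p2 * X2 - p * Y) * (p1 / X1 + p2 / X2 - p / Y) ≤ (p1 + p2 - p) ^ 2 := by
  have e1 : (p1 + p2 - p) ^ 2 - (p1 * X1 + p2 * X2 - p * Y) * (p1 / X1 + p2 / X2 - p / Y) =
      ((p * p1 * (X1 - Y) ^ 2 * X2 + p * p2 * (X2 - Y) ^ 2 * X1) - p1 * p2 * (X1 - X2) ^ 2 * Y) /
        (X1 * X2 * Y) := by
    field_simp
    ring
  have e2 : 0 ≤ ((p * p1 * (X1 - Y) ^ 2 * X2 + p * p2 * (X2 - Y) ^ 2 * X1) -
      p1 * p2 * (X1 - X2) ^ 2 * Y) / (X1 * X2 * Y) := by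
    apply div_nonneg
    · linarith
    · positivity
  linarith

/-- Local support of `1 / (1/n1 + 1/n2 - 1/l)` for an affine `l`. -/
theorem ls_W {n1 n2 : ℝ → ℝ} {s₀ α1 α2 l0 lam : ℝ} (c1 : ContinuousAt n1 s₀)
    (c2 : ContinuousAt n2 s₀) (h1 : ∀ s, n1 s₀ + α1 * (s - s₀) ≤ n1 s)
    (h2 : ∀ s, n2 s₀ + α2 * (s - s₀) ≤ n2 s) (pos1 : 0 < n1 s₀) (pos2 : 0 < n2 s₀) (pos3 : 0 < l0)
    (hq : 0 < 1 / n1 s₀ + 1 / n2 s₀ - 1 / l0) (hl : l0 ≤ n2 s₀)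
    (hb : lam / l0 ≠ α2 / n2 s₀)
    (hab : (α1 / n1 s₀ - α2 / n2 s₀) ^ 2 ≤ (α1 / n1 s₀ - lam / l0) ^ 2) :
    LS (fun s => 1 / (1 / n1 s + 1 / n2 s - 1 / (l0 + lam * (s - s₀)))) s₀ := by
  set p1 := 1 / n1 s₀ with hp1
  set p2 := 1 / n2 s₀ with hp2
  set p := 1 / l0 with hp
  set x1 := α1 / n1 s₀ with hx1
  set x2 := α2 / n2 s₀ with hx2
  set y := lam / l0 with hy
  have P1 : 0 < p1 := by positivity
  have P2 : 0 < p2 := by positivity
  have P : 0 < p := by positivity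
  have hpp : p2 ≤ p := by
    rw [hp2, hp]
    exact one_div_le_one_div_of_le pos3 hl
  set q := p1 + p2 - p with hqdef
  -- strict inequality at the point
  have hstrict : p1 * p2 * (x1 - x2) ^ 2 < p * p1 * (x1 - y) ^ 2 + p * p2 * (x2 - y) ^ 2 := by
    have e1 : p1 * p2 * (x1 - x2) ^ 2 ≤ p1 * p2 * (x1 - y) ^ 2 := by gcongr
    have e2 : p1 * p2 * (x1 - y) ^ 2 ≤ p * p1 * (x1 - y) ^ 2 := by
      have : p1 * p2 ≤ p * p1 := by nlinarith
      exact mul_le_mul_of_nonneg_right this (sq_nonneg _)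
    have e3 : 0 < p * p2 * (x2 - y) ^ 2 := by
      have : x2 - y ≠ 0 := by
        intro h
        apply hb
        linarith
      positivity
    linarith
  -- the linear functions
  have hcont : Tendsto (fun s : ℝ => (p * p1 * (x1 - y) ^ 2 * (1 + x2 * (s - s₀)) +
      p * p2 * (x2 - y) ^ 2 * (1 + x1 * (s - s₀))) - p1 * p2 * (x1 - x2) ^ 2 * (1 + y * (s - s₀)))
      (𝓝 s₀) (𝓝 ((p * p1 * (x1 - y) ^ 2 * (1 + x2 * (s₀ - s₀)) +
      p * p2 * (x2 - y) ^ 2 * (1 + x1 * (s₀ - s₀))) - p1 * p2 * (x1 - x2) ^ 2 * (1 + y * (s₀ - s₀)))) := by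
    apply Continuous.tendsto
    fun_prop
  have ev1 := hcont.eventually (lt_mem_nhds (a := 0) (by
    simp only [sub_self, mul_zero, add_zero, mul_one]
    linarith))
  have hev : ∀ x : ℝ, ∀ᶠ s in 𝓝 s₀, 0 < 1 + x * (s - s₀) := by
    intro x
    have : Tendsto (fun s : ℝ => 1 + x * (s - s₀)) (𝓝 s₀) (𝓝 (1 + x * (s₀ - s₀))) := by
      apply Continuous.tendsto
      fun_prop
    exact this.eventually (lt_mem_nhds (by simp))
  have hn1 : ContinuousAt (fun s => 1 / n1 s + 1 / n2 s - 1 / (l0 + lam * (s - s₀))) s₀ := by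
    apply ContinuousAt.sub
    · apply ContinuousAt.add
      · exact continuousAt_const.div c1 pos1.ne'
      · exact continuousAt_const.div c2 pos2.ne'
    · apply ContinuousAt.div continuousAt_const
      · fun_prop
      · simp only [sub_self, mul_zero, add_zero]
        exact pos3.ne'
  have ev2 : ∀ᶠ s in 𝓝 s₀, 0 < 1 / n1 s + 1 / n2 s - 1 / (l0 + lam * (s - s₀)) := by
    apply hn1.eventually (lt_mem_nhds ?_)
    simp only [sub_self, mul_zero, add_zero]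
    exact hq
  refine ⟨(p1 * x1 + p2 * x2 - p * y) / q ^ 2, ?_⟩
  filter_upwards [ev1, ev2, hev x1, hev x2, hev y] with s i1 i2 i3 i4 i5
  have A1 : n1 s₀ + α1 * (s - s₀) = (1 + x1 * (s - s₀)) / p1 := by
    rw [hx1, hp1]; field_simp
  have A2 : n2 s₀ + α2 * (s - s₀) = (1 + x2 * (s - s₀)) / p2 := by
    rw [hx2, hp2]; field_simp
  have A3 : l0 + lam * (s - s₀) = (1 + y * (s - s₀)) / p := by
    rw [hy, hp]; field_simp
  have B1 : 1 / n1 s ≤ p1 / (1 + x1 * (s - s₀)) := by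
    have := h1 s
    rw [A1] at this
    calc 1 / n1 s ≤ 1 / ((1 + x1 * (s - s₀)) / p1) := one_div_le_one_div_of_le (by positivity) this
      _ = p1 / (1 + x1 * (s - s₀)) := by rw [one_div_div]
  have B2 : 1 / n2 s ≤ p2 / (1 + x2 * (s - s₀)) := by
    have := h2 s
    rw [A2] at this
    calc 1 / n2 s ≤ 1 / ((1 + x2 * (s - s₀)) / p2) := one_div_le_one_div_of_le (by positivity) this
      _ = p2 / (1 + x2 * (s - s₀)) := by rw [one_div_div]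
  have B3 : 1 / (l0 + lam * (s - s₀)) = p / (1 + y * (s - s₀)) := by rw [A3, one_div_div]
  have hstar := star_ineq (p1 := p1) (p2 := p2) (p := p) i3 i4 i5 (by
    have e1 : (1 + x1 * (s - s₀)) - (1 + x2 * (s - s₀)) = (x1 - x2) * (s - s₀) := by ring
    have e2 : (1 + x1 * (s - s₀)) - (1 + y * (s - s₀)) = (x1 - y) * (s - s₀) := by ring
    have e3 : (1 + x2 * (s - s₀)) - (1 + y * (s - s₀)) = (x2 - y) * (s - s₀) := by ring
    rw [e1, e2, e3]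
    have := mul_nonneg i1.le (sq_nonneg (s - s₀))
    nlinarith)
  set D := 1 / n1 s + 1 / n2 s - 1 / (l0 + lam * (s - s₀)) with hD
  have hDa : D ≤ p1 / (1 + x1 * (s - s₀)) + p2 / (1 + x2 * (s - s₀)) - p / (1 + y * (s - s₀)) := by
    rw [hD, B3]; linarith
  have hf : (1 / (1 / n1 s₀ + 1 / n2 s₀ - 1 / (l0 + lam * (s₀ - s₀)))) +
      (p1 * x1 + p2 * x2 - p * y) / q ^ 2 * (s - s₀) =
      (p1 * (1 + x1 * (s - s₀)) + p2 * (1 + x2 * (s - s₀)) - p * (1 + y * (s - s₀))) / q ^ 2 := by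
    have : (1 / n1 s₀ + 1 / n2 s₀ - 1 / (l0 + lam * (s₀ - s₀))) = q := by
      simp only [sub_self, mul_zero, add_zero]
      rfl
    rw [this]
    have hq' : q ≠ 0 := hq.ne'
    field_simp
    rw [hqdef]
    ring
  show (1 / (1 / n1 s₀ + 1 / n2 s₀ - 1 / (l0 + lam * (s₀ - s₀)))) +
      (p1 * x1 + p2 * x2 - p * y) / q ^ 2 * (s - s₀) ≤ 1 / D
  rw [hf, div_le_div_iff₀ (by positivity) i2, one_mul]
  set N := p1 * (1 + x1 * (s - s₀)) + p2 * (1 + x2 * (s - s₀)) - p * (1 + y * (s - s₀)) with hN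
  by_cases hN0 : 0 ≤ N
  · calc N * D ≤ N * (p1 / (1 + x1 * (s - s₀)) + p2 / (1 + x2 * (s - s₀)) - p / (1 + y * (s - s₀))) := by
          exact mul_le_mul_of_nonneg_left hDa hN0
      _ ≤ q ^ 2 := hstar
  · push Not at hN0
    have : N * D ≤ 0 := mul_nonpos_of_nonpos_of_nonneg hN0.le i2.le
    have h0 : 0 ≤ q ^ 2 := sq_nonneg q
    linarith

end Pool.Agent.H490R3.Sec
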