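import Mathlib
import Pool.Agent.H490R3.Sec.OneD

set_option autoImplicit false

open Set Filter Topology

namespace Pool.Agent.H490R3.Sec

/-- The hypotheses on the two gauge functions in a zone. -/
structure ZH (n1 n2 : ℝ → ℝ) : Prop where
  c1 : Continuous n1
  c2 : Continuous n2
  v1 : Cvx n1
  v2 : Cvx n2
  p1 : ∀ s, 0 < n1 s
  p2 : ∀ s, 0 < n2 s
  a1 : ∀ s, |s| = 3/5 → |n1 s - 5/6| < 1/1000000
  a2 : ∀ s, |s| = 11/20 → |n1 s - 5/6| < 1/1000000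
  b1 : ∀ s, |s| = 9/20 → |n2 s - 1| < 1/1000000
  b2 : ∀ s, |s| = 1/2 → |n2 s - 1| < 1/1000000
  b3 : ∀ s, |s| = 11/20 → |n2 s - 61/60| < 1/1000000
  b4 : ∀ s, |s| = 4/5 → |n2 s - 11/10| < 1/1000000
  d1 : ∀ s, |s| = 4/5 → n1 s < 21/20

theorem Cvx.neg {n : ℝ → ℝ} (h : Cvx n) : Cvx (fun s => n (-s)) := by
  intro s₀
  obtain ⟨α, hα⟩ := h (-s₀)
  refine ⟨-α, fun s => ?_⟩
  have := hα (-s)
  nlinarith

theorem ZH.neg {n1 n2 : ℝ → ℝ} (h : ZH n1 n2) : ZH (fun s => n1 (-s)) (fun s => n2 (-s)) where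
  c1 := h.c1.comp continuous_neg
  c2 := h.c2.comp continuous_neg
  v1 := h.v1.neg
  v2 := h.v2.neg
  p1 := fun s => h.p1 _
  p2 := fun s => h.p2 _
  a1 := fun s hs => h.a1 _ (by rw [abs_neg]; exact hs)
  a2 := fun s hs => h.a2 _ (by rw [abs_neg]; exact hs)
  b1 := fun s hs => h.b1 _ (by rw [abs_neg]; exact hs)
  b2 := fun s hs => h.b2 _ (by rw [abs_neg]; exact hs)
  b3 := fun s hs => h.b3 _ (by rw [abs_neg]; exact hs)
  b4 := fun s hs => h.b4 _ (by rw [abs_neg]; exact hs)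
  d1 := fun s hs => h.d1 _ (by rw [abs_neg]; exact hs)

theorem Cvx.up {n : ℝ → ℝ} (h : Cvx n) {a b s M : ℝ} (h1 : a ≤ s) (h2 : s ≤ b) (h3 : n a ≤ M)
    (h4 : n b ≤ M) : n s ≤ M := by
  obtain ⟨α, hα⟩ := h s
  have e1 := hα a
  have e2 := hα b
  rcases le_total 0 α with h | h
  · nlinarith
  · nlinarith

section
variable {n1 n2 : ℝ → ℝ} (h : ZH n1 n2)
include h

theorem ZH.n1_up {s : ℝ} (h1 : -(3/5) ≤ s) (h2 : s ≤ 3/5) : n1 s ≤ 5/6 + 1/1000000 := by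
  have e1 := (abs_lt.mp (h.a1 (-(3/5)) (by norm_num [abs_of_pos]))).2
  have e2 := (abs_lt.mp (h.a1 (3/5) (by norm_num [abs_of_pos]))).2
  exact h.v1.up h1 h2 (by linarith) (by linarith)

theorem ZH.n1_lo {s : ℝ} (h1 : -(11/20) ≤ s) (h2 : s ≤ 11/20) : 5/6 - 45/1000000 ≤ n1 s := by
  have e1 := (abs_lt.mp (h.a1 (-(3/5)) (by norm_num [abs_of_pos]))).2
  have e2 := (abs_lt.mp (h.a2 (-(11/20)) (by norm_num [abs_of_pos]))).1
  obtain ⟨α, hα⟩ := h.v1 (-(11/20))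
  have e3 := hα (-(3/5))
  have e4 := hα s
  have e5 : -(40/1000000) ≤ α := by nlinarith
  have e6 := mul_nonneg (by linarith : 0 ≤ α + 40/1000000) (by linarith : 0 ≤ s + 11/20)
  nlinarith

theorem ZH.n1_slope {s α : ℝ} (h1 : -(11/20) ≤ s) (h2 : s ≤ 11/20)
    (hα : ∀ t, n1 s + α * (t - s) ≤ n1 t) : |α| ≤ 1000/1000000 := by
  have e1 := (abs_lt.mp (h.a1 (-(3/5)) (by norm_num [abs_of_pos]))).2
  have e2 := (abs_lt.mp (h.a1 (3/5) (by norm_num [abs_of_pos]))).2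
  have e3 := h.n1_lo h1 h2
  have e4 := hα (-(3/5))
  have e5 := hα (3/5)
  rw [abs_le]
  constructor
  · by_contra hc
    push Not at hc
    nlinarith [mul_nonneg (by linarith : 0 ≤ -(1000/1000000) - α) (by linarith : 0 ≤ s + 11/20)]
  · by_contra hc
    push Not at hc
    nlinarith [mul_nonneg (by linarith : 0 ≤ α - (1000/1000000)) (by linarith : 0 ≤ 11/20 - s)]

theorem ZH.n2_up {s : ℝ} (h1 : -(1/2) ≤ s) (h2 : s ≤ 1/2) : n2 s ≤ 1 + 1/1000000 := by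
  have e1 := (abs_lt.mp (h.b2 (-(1/2)) (by norm_num [abs_of_pos]))).2
  have e2 := (abs_lt.mp (h.b2 (1/2) (by norm_num [abs_of_pos]))).2
  exact h.v2.up h1 h2 (by linarith) (by linarith)

theorem ZH.n2_up' {s : ℝ} (h1 : -(11/20) ≤ s) (h2 : s ≤ 11/20) : n2 s ≤ 61/60 + 1/1000000 := by
  have e1 := (abs_lt.mp (h.b3 (-(11/20)) (by norm_num [abs_of_pos]))).2
  have e2 := (abs_lt.mp (h.b3 (11/20) (by norm_num [abs_of_pos]))).2
  exact h.v2.up h1 h2 (by linarith) (by linarith)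

theorem ZH.n2_lo1 {s : ℝ} (h1 : -(9/20) ≤ s) (h2 : s ≤ 4/5) : 1 - 51/1000000 ≤ n2 s := by
  have e1 := (abs_lt.mp (h.b2 (-(1/2)) (by norm_num [abs_of_pos]))).2
  have e2 := (abs_lt.mp (h.b1 (-(9/20)) (by norm_num [abs_of_pos]))).1
  obtain ⟨α, hα⟩ := h.v2 (-(9/20))
  have e3 := hα (-(1/2))
  have e4 := hα s
  have e5 : -(40/1000000) ≤ α := by nlinarith
  have e6 := mul_nonneg (by linarith : 0 ≤ α + 40/1000000) (by linarith : 0 ≤ s + 9/20)
  nlinarith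

theorem ZH.n2_lo {s : ℝ} (h1 : -(4/5) ≤ s) (h2 : s ≤ 4/5) : 1 - 51/1000000 ≤ n2 s := by
  rcases le_total (-(9/20)) s with h3 | h3
  · exact h.n2_lo1 h3 h2
  · have := h.neg.n2_lo1 (s := -s) (by linarith) (by linarith)
    simpa using this

theorem ZH.n2_slope {s α : ℝ} (h1 : -(4/5) ≤ s) (h2 : s ≤ 2/5)
    (hα : ∀ t, n2 s + α * (t - s) ≤ n2 t) : α ≤ 1060/1000000 := by
  have e1 := (abs_lt.mp (h.b1 (9/20) (by norm_num [abs_of_pos]))).2
  have e3 := h.n2_lo h1 (by linarith)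
  have e5 := hα (9/20)
  by_contra hc
  push Not at hc
  nlinarith [mul_nonneg (by linarith : 0 ≤ α - (1060/1000000)) (by linarith : 0 ≤ 2/5 - s)]

theorem ZH.n2_slope' {s α : ℝ} (h1 : -(2/5) ≤ s) (h2 : s ≤ 4/5)
    (hα : ∀ t, n2 s + α * (t - s) ≤ n2 t) : -(1060/1000000) ≤ α := by
  have := h.neg.n2_slope (s := -s) (α := -α) (by linarith) (by linarith) (by
    intro t
    have := hα (-t)
    simp only [neg_neg]
    nlinarith)
  linarith

theorem ZH.lineLow {s k : ℝ} (hk1 : 9/50 ≤ k) (hk2 : k ≤ 1/4) (h1 : -(4/5) ≤ s) (h2 : s ≤ 4/5) :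
    1 - k / 2 - 60/1000000 ≤ n2 s + k * s := by
  rcases le_total (-(1/2)) s with h3 | h3
  · have := h.n2_lo h1 h2
    nlinarith
  have e1 := (abs_lt.mp (h.b3 (-(11/20)) (by norm_num [abs_of_pos]))).1
  have e2 := (abs_lt.mp (h.b4 (-(4/5)) (by norm_num [abs_of_pos]))).2
  have e3 := (abs_lt.mp (h.b2 (-(1/2)) (by norm_num [abs_of_pos]))).2
  obtain ⟨α, hα⟩ := h.v2 (-(11/20))
  have e4 := hα (-(4/5))
  have e5 := hα s
  have e6 := hα (-(1/2))
  rcases le_total (-(11/20)) s with h4 | h4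
  · have e7 : -(1/3) - 8/1000000 ≤ α := by nlinarith
    have e8 := mul_nonneg (by linarith : 0 ≤ α + 1/3 + 8/1000000) (by linarith : 0 ≤ s + 11/20)
    have e9 := mul_nonneg (by linarith : 0 ≤ 1/3 - k) (by linarith : 0 ≤ -(1/2) - s)
    nlinarith
  · have e7 : α ≤ -(1/3) + 40/1000000 := by nlinarith
    have e8 := mul_nonneg (by linarith : 0 ≤ -α - 1/3 + 40/1000000) (by linarith : 0 ≤ -s - 11/20)
    have e9 := mul_nonneg (by linarith : 0 ≤ 1/3 - 40/1000000 - k) (by linarith : 0 ≤ -(11/20) - s)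
    nlinarith

/-- outside of `[-11/20, -9/20]` the function is larger than at `-1/2` -/
theorem ZH.lineStrict {s k : ℝ} (hk1 : 9/50 ≤ k) (hk2 : k ≤ 1/4) (h1 : -(4/5) ≤ s) (h2 : s ≤ 4/5)
    (h3 : s ≤ -(11/20) ∨ -(9/20) ≤ s) : n2 (-(1/2)) + k * (-(1/2)) < n2 s + k * s := by
  have e1 := (abs_lt.mp (h.b3 (-(11/20)) (by norm_num [abs_of_pos]))).1
  have e3 := (abs_lt.mp (h.b2 (-(1/2)) (by norm_num [abs_of_pos]))).2
  have e10 := (abs_lt.mp (h.b1 (-(9/20)) (by norm_num [abs_of_pos]))).1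
  rcases h3 with h4 | h4
  · obtain ⟨α, hα⟩ := h.v2 (-(11/20))
    have e5 := hα s
    have e6 := hα (-(1/2))
    have e7 : α ≤ -(1/3) + 40/1000000 := by nlinarith
    have e8 := mul_nonneg (by linarith : 0 ≤ -α - 1/3 + 40/1000000) (by linarith : 0 ≤ -s - 11/20)
    have e9 := mul_nonneg (by linarith : 0 ≤ 1/3 - 40/1000000 - k) (by linarith : 0 ≤ -(11/20) - s)
    nlinarith
  · obtain ⟨α, hα⟩ := h.v2 (-(9/20))
    have e5 := hα s
    have e6 := hα (-(1/2))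
    have e7 : -(40/1000000) ≤ α := by nlinarith
    have e8 := mul_nonneg (by linarith : 0 ≤ α + 40/1000000) (by linarith : 0 ≤ s + 9/20)
    have e9 := mul_nonneg (by linarith : 0 ≤ k - 40/1000000) (by linarith : 0 ≤ 9/20 + s)
    nlinarith

end

/-- The support value for slope `-k`. -/
noncomputable def bb (n : ℝ → ℝ) (k : ℝ) : ℝ :=
  sInf ((fun s => n s + k * s) '' Icc (-(4/5)) (4/5))

theorem bb_cont {n : ℝ → ℝ} (hn : Continuous n) : Continuous (bb n) := by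
  unfold bb
  exact isCompact_Icc.continuous_sInf (f := fun (k : ℝ) (s : ℝ) => n s + k * s) (by
    simp only [Function.HasUncurry.uncurry, id]
    fun_prop)

section
variable {n1 n2 : ℝ → ℝ} (h : ZH n1 n2)
include h

theorem ZH.bb_facts {k : ℝ} (hk1 : 9/50 ≤ k) (hk2 : k ≤ 1/4) :
    (∀ s, |s| ≤ 4/5 → bb n2 k ≤ n2 s + k * s) ∧ 1 - k / 2 - 60/1000000 ≤ bb n2 k ∧
    bb n2 k ≤ 1 - k / 2 + 1/1000000 ∧
    ∃ c, -(11/20) < c ∧ c < -(9/20) ∧ n2 c + k * c = bb n2 k ∧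
      ∀ s, c < s → s ≤ 4/5 → bb n2 k < n2 s + k * s := by
  have hcont : Continuous (fun s => n2 s + k * s) := by
    have := h.c2
    fun_prop
  have hcomp : IsCompact ((fun s => n2 s + k * s) '' Icc (-(4/5) : ℝ) (4/5)) :=
    isCompact_Icc.image hcont
  have hne : (Icc (-(4/5) : ℝ) (4/5)).Nonempty := nonempty_Icc.mpr (by norm_num)
  have hmin := hcomp.sInf_mem (hne.image _)
  have hle : ∀ s ∈ Icc (-(4/5) : ℝ) (4/5), bb n2 k ≤ n2 s + k * s := fun s hs =>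
    csInf_le hcomp.bddBelow (mem_image_of_mem _ hs)
  have hle' : ∀ s : ℝ, |s| ≤ 4/5 → bb n2 k ≤ n2 s + k * s := fun s hs => hle s (abs_le.mp hs)
  have hhalf := hle (-(1/2)) (by constructor <;> norm_num)
  have e3 := (abs_lt.mp (h.b2 (-(1/2)) (by norm_num [abs_of_pos]))).2
  obtain ⟨c₀, hc₀, hc₀'⟩ := hmin
  have hc₀'' : n2 c₀ + k * c₀ = bb n2 k := hc₀'
  refine ⟨hle', ?_, by linarith, ?_⟩
  · rw [← hc₀'']
    exact h.lineLow hk1 hk2 hc₀.1 hc₀.2
  · set A : Set ℝ := Icc (-(4/5) : ℝ) (4/5) ∩ {s | n2 s + k * s = bb n2 k} with hA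
    have hAc : IsCompact A := isCompact_Icc.inter_right (isClosed_eq hcont continuous_const)
    obtain ⟨c, hcA, hcm⟩ := hAc.exists_isGreatest ⟨c₀, hc₀, hc₀''⟩
    have hc1 : n2 c + k * c = bb n2 k := hcA.2
    refine ⟨c, ?_, ?_, hc1, ?_⟩
    · by_contra hcon
      push Not at hcon
      have := h.lineStrict hk1 hk2 hcA.1.1 hcA.1.2 (Or.inl hcon)
      linarith
    · by_contra hcon
      push Not at hcon
      have := h.lineStrict hk1 hk2 hcA.1.1 hcA.1.2 (Or.inr hcon)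
      linarith
    · intro s hs1 hs2
      refine lt_of_le_of_ne (hle s ⟨by linarith [hcA.1.1], hs2⟩) ?_
      intro heq
      have := hcm (show s ∈ A from ⟨⟨by linarith [hcA.1.1], hs2⟩, heq.symm⟩)
      linarith

theorem ZH.h_up {s : ℝ} (h1 : -(11/20) ≤ s) (h2 : s ≤ 11/20) : 1 / n1 s + 1 / n2 s ≤ 2201/1000 := by
  have e1 := h.n1_lo h1 h2
  have e2 := h.n2_lo (s := s) (by linarith) (by linarith)
  have e3 : 1 / n1 s ≤ 1 / (5/6 - 45/1000000) := one_div_le_one_div_of_le (by norm_num) e1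
  have e4 : 1 / n2 s ≤ 1 / (1 - 51/1000000) := one_div_le_one_div_of_le (by norm_num) e2
  norm_num at e3 e4 ⊢
  linarith

theorem ZH.h_lo {s : ℝ} (h1 : -(11/20) ≤ s) (h2 : s ≤ 11/20) : 2 ≤ 1 / n1 s + 1 / n2 s := by
  have e1 := h.n1_up (s := s) (by linarith) (by linarith)
  have e2 := h.n2_up' h1 h2
  have e3 : 1 / (5/6 + 1/1000000) ≤ 1 / n1 s := one_div_le_one_div_of_le (h.p1 s) e1
  have e4 : 1 / (61/60 + 1/1000000) ≤ 1 / n2 s := one_div_le_one_div_of_le (h.p2 s) e2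
  norm_num at e3 e4 ⊢
  linarith

theorem ZH.h_zero : 2199997/1000000 ≤ 1 / n1 0 + 1 / n2 0 := by
  have e1 := h.n1_up (s := 0) (by norm_num) (by norm_num)
  have e2 := h.n2_up (s := 0) (by norm_num) (by norm_num)
  have e3 : 1 / (5/6 + 1/1000000) ≤ 1 / n1 0 := one_div_le_one_div_of_le (h.p1 0) e1
  have e4 : 1 / (1 + 1/1000000) ≤ 1 / n2 0 := one_div_le_one_div_of_le (h.p2 0) e2
  norm_num at e3 e4 ⊢
  linarith

end

/-- Zone data. -/
structure ZD (n1 n2 : ℝ → ℝ) (k b1 b2 c m d : ℝ) : Prop where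
  hk1 : 9/50 ≤ k
  hk2 : k ≤ 1/4
  hc1 : -(11/20) < c
  hc2 : c < -(9/20)
  hd1 : 9/20 < d
  hd2 : d < 11/20
  hm1 : -(2/5) < m
  hm2 : m < 2/5
  t1 : n2 c + k * c = b1
  u1 : ∀ s, |s| ≤ 4/5 → b1 ≤ n2 s + k * s
  w1 : ∀ s, c < s → s ≤ 4/5 → b1 < n2 s + k * s
  t2 : n2 d - k * d = b2
  u2 : ∀ s, |s| ≤ 4/5 → b2 ≤ n2 s - k * s
  w2 : ∀ s, -(4/5) ≤ s → s < d → b2 < n2 s - k * s
  l1 : 1 - k / 2 - 60/1000000 ≤ b1
  l2 : 1 - k / 2 - 60/1000000 ≤ b2
  D0 : 1 / (b1 - k * m) + 1 / (b2 + k * m) = 1 / n1 m + 1 / n2 m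
  D1 : ∀ s, |s| ≤ 2/5 → 1 / n1 s + 1 / n2 s ≤ 1 / (b1 - k * s) + 1 / (b2 + k * s)

theorem ZD.neg {n1 n2 : ℝ → ℝ} {k b1 b2 c m d : ℝ} (h : ZD n1 n2 k b1 b2 c m d) :
    ZD (fun s => n1 (-s)) (fun s => n2 (-s)) k b2 b1 (-d) (-m) (-c) where
  hk1 := h.hk1
  hk2 := h.hk2
  hc1 := by linarith [h.hd2]
  hc2 := by linarith [h.hd1]
  hd1 := by linarith [h.hc2]
  hd2 := by linarith [h.hc1]
  hm1 := by linarith [h.hm2]
  hm2 := by linarith [h.hm1]
  t1 := by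
    have := h.t2
    simp only [neg_neg]
    linarith
  u1 := fun s hs => by
    have := h.u2 (-s) (by rw [abs_neg]; exact hs)
    linarith
  w1 := fun s hs1 hs2 => by
    have := h.w2 (-s) (by linarith) (by linarith)
    linarith
  t2 := by
    have := h.t1
    simp only [neg_neg]
    linarith
  u2 := fun s hs => by
    have := h.u1 (-s) (by rw [abs_neg]; exact hs)
    linarith
  w2 := fun s hs1 hs2 => by
    have := h.w1 (-s) (by linarith) (by linarith)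
    linarith
  l1 := h.l2
  l2 := h.l1
  D0 := by
    have := h.D0
    simp only [neg_neg]
    rw [← this, add_comm]
    congr 2 <;> ring
  D1 := fun s hs => by
    have := h.D1 (-s) (by rw [abs_neg]; exact hs)
    refine this.trans (le_of_eq ?_)
    rw [add_comm]
    congr 2 <;> ring

theorem exists_ZD {n1 n2 : ℝ → ℝ} (h : ZH n1 n2) : ∃ k b1 b2 c m d, ZD n1 n2 k b1 b2 c m d := by
  set B1 : ℝ → ℝ := bb n2 with hB1
  set B2 : ℝ → ℝ := bb (fun s => n2 (-s)) with hB2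
  have cB1 : Continuous B1 := bb_cont h.c2
  have cB2 : Continuous B2 := bb_cont h.neg.c2
  have F1 : ∀ k : ℝ, 9/50 ≤ k → k ≤ 1/4 → _ := fun k hk1 hk2 => h.bb_facts (k := k) hk1 hk2
  have F2 : ∀ k : ℝ, 9/50 ≤ k → k ≤ 1/4 → _ := fun k hk1 hk2 => h.neg.bb_facts (k := k) hk1 hk2
  -- the function Φ
  set Φ : ℝ × ℝ → ℝ := fun x => 1 / max (B1 x.1 - x.1 * x.2) (1/2) +
    1 / max (B2 x.1 + x.1 * x.2) (1/2) - (1 / n1 x.2 + 1 / n2 x.2) with hΦ
  have cΦ : Continuous Φ := by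
    have q1 : ∀ x : ℝ × ℝ, max (B1 x.1 - x.1 * x.2) (1/2) ≠ 0 := fun x =>
      (lt_of_lt_of_le (by norm_num : (0:ℝ) < 1/2) (le_max_right _ _)).ne'
    have q2 : ∀ x : ℝ × ℝ, max (B2 x.1 + x.1 * x.2) (1/2) ≠ 0 := fun x =>
      (lt_of_lt_of_le (by norm_num : (0:ℝ) < 1/2) (le_max_right _ _)).ne'
    apply Continuous.sub
    · apply Continuous.add
      · exact continuous_const.div (by fun_prop) q1
      · exact continuous_const.div (by fun_prop) q2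
    · apply Continuous.add
      · exact continuous_const.div (h.c1.comp continuous_snd) (fun x => (h.p1 _).ne')
      · exact continuous_const.div (h.c2.comp continuous_snd) (fun x => (h.p2 _).ne')
  have lowB : ∀ k s : ℝ, 9/50 ≤ k → k ≤ 1/4 → -(2/5) ≤ s → s ≤ 2/5 →
      1/2 ≤ B1 k - k * s ∧ 1/2 ≤ B2 k + k * s := by
    intro k s h1 h2 h3 h4
    have e1 := (F1 k h1 h2).2.1
    have e2 := (F2 k h1 h2).2.1
    constructor
    · nlinarith [mul_nonneg (by linarith : 0 ≤ k) (by linarith : 0 ≤ 2/5 - s)]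
    · nlinarith [mul_nonneg (by linarith : 0 ≤ k) (by linarith : 0 ≤ 2/5 + s)]
  have hΦ' : ∀ k s : ℝ, 9/50 ≤ k → k ≤ 1/4 → -(2/5) ≤ s → s ≤ 2/5 →
      Φ (k, s) = 1 / (B1 k - k * s) + 1 / (B2 k + k * s) - (1 / n1 s + 1 / n2 s) := by
    intro k s h1 h2 h3 h4
    obtain ⟨e1, e2⟩ := lowB k s h1 h2 h3 h4
    simp only [hΦ]
    rw [max_eq_left e1, max_eq_left e2]
  set S : Set (ℝ × ℝ) := (Icc (9/50) (1/4) ×ˢ Icc (-(2/5)) (2/5)) ∩ {x | Φ x ≤ 0} with hS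
  have hSc : IsCompact S := (isCompact_Icc.prod isCompact_Icc).inter_right
    (isClosed_le cΦ continuous_const)
  have hSne : S.Nonempty := by
    refine ⟨(9/50, 0), ⟨⟨⟨le_rfl, by norm_num⟩, ⟨by norm_num, by norm_num⟩⟩, ?_⟩⟩
    show Φ (9/50, 0) ≤ 0
    rw [hΦ' _ _ le_rfl (by norm_num) (by norm_num) (by norm_num)]
    have e1 := (F1 (9/50) le_rfl (by norm_num)).2.1
    have e2 := (F2 (9/50) le_rfl (by norm_num)).2.1
    have e3 := h.h_zero
    have e4 : 1 / (B1 (9/50) - 9/50 * 0) ≤ 1 / (1 - (9/50)/2 - 60/1000000) := by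
      apply one_div_le_one_div_of_le (by norm_num)
      linarith
    have e5 : 1 / (B2 (9/50) + 9/50 * 0) ≤ 1 / (1 - (9/50)/2 - 60/1000000) := by
      apply one_div_le_one_div_of_le (by norm_num)
      linarith
    norm_num at e3 e4 e5 ⊢
    linarith
  obtain ⟨x, hxS, hxmax⟩ := hSc.exists_isMaxOn hSne continuous_fst.continuousOn
  obtain ⟨k, m⟩ := x
  obtain ⟨⟨⟨hk1, hk2⟩, ⟨hm1, hm2⟩⟩, hneg⟩ := hxS
  simp only [mem_ofPred_eq] at hneg hk1 hk2 hm1 hm2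
  -- endpoints
  have hend : ∀ k' s : ℝ, 9/50 ≤ k' → k' ≤ 1/4 → (s = 2/5 ∨ s = -(2/5)) → 0 < Φ (k', s) := by
    intro k' s h1 h2 h3
    have hs1 : -(2/5) ≤ s := by rcases h3 with rfl | rfl <;> norm_num
    have hs2 : s ≤ 2/5 := by rcases h3 with rfl | rfl <;> norm_num
    rw [hΦ' _ _ h1 h2 hs1 hs2]
    obtain ⟨q1, q2⟩ := lowB k' s h1 h2 hs1 hs2
    have e1 := (F1 k' h1 h2).2.2.1
    have e2 := (F2 k' h1 h2).2.2.1
    have e3 := h.h_up (s := s) (by linarith) (by linarith)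
    rcases h3 with rfl | rfl
    · have e4 : 1 / (838001/1000000) ≤ 1 / (B1 k' - k' * (2/5)) := by
        apply one_div_le_one_div_of_le (by linarith)
        have : B1 k' ≤ 1 - k' / 2 + 1/1000000 := e1
        linarith
      have e5 : 1 / (982001/1000000) ≤ 1 / (B2 k' + k' * (2/5)) := by
        apply one_div_le_one_div_of_le (by linarith)
        have : B2 k' ≤ 1 - k' / 2 + 1/1000000 := e2
        linarith
      norm_num at e3 e4 e5 ⊢
      linarith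
    · have e4 : 1 / (982001/1000000) ≤ 1 / (B1 k' - k' * (-(2/5))) := by
        apply one_div_le_one_div_of_le (by linarith)
        have : B1 k' ≤ 1 - k' / 2 + 1/1000000 := e1
        linarith
      have e5 : 1 / (838001/1000000) ≤ 1 / (B2 k' + k' * (-(2/5))) := by
        apply one_div_le_one_div_of_le (by linarith)
        have : B2 k' ≤ 1 - k' / 2 + 1/1000000 := e2
        linarith
      norm_num at e3 e4 e5 ⊢
      linarith
  have htop : ∀ s : ℝ, -(2/5) ≤ s → s ≤ 2/5 → 0 < Φ (1/4, s) := by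
    intro s hs1 hs2
    rw [hΦ' _ _ (by norm_num) le_rfl hs1 hs2]
    obtain ⟨q1, q2⟩ := lowB (1/4) s (by norm_num) le_rfl hs1 hs2
    have e1 : B1 (1/4) ≤ _ := (F1 (1/4) (by norm_num) le_rfl).2.2.1
    have e2 : B2 (1/4) ≤ _ := (F2 (1/4) (by norm_num) le_rfl).2.2.1
    have e3 := h.h_up (s := s) (by linarith) (by linarith)
    have e4 : 2 / (875001/1000000) ≤ 1 / (B1 (1/4) - 1/4 * s) + 1 / (B2 (1/4) + 1/4 * s) := by
      set a := B1 (1/4) - 1/4 * s with ha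
      set b := B2 (1/4) + 1/4 * s with hb
      have hab : a + b ≤ 2 * (875001/1000000) := by
        rw [ha, hb]
        norm_num at e1 e2 ⊢
        linarith
      have ha0 : 0 < a := by linarith
      have hb0 : 0 < b := by linarith
      rw [div_add_div _ _ ha0.ne' hb0.ne', div_le_div_iff₀ (by norm_num) (by positivity)]
      nlinarith [sq_nonneg (a - b)]
    norm_num at e3 e4 ⊢
    linarith
  have hk3 : k < 1/4 := by
    refine lt_of_le_of_ne hk2 ?_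
    rintro rfl
    have := htop m hm1 hm2
    linarith
  have hnonneg : ∀ s : ℝ, -(2/5) ≤ s → s ≤ 2/5 → 0 ≤ Φ (k, s) := by
    intro s hs1 hs2
    by_contra hcon
    push Not at hcon
    have hc : Continuous (fun k' : ℝ => Φ (k', s)) := cΦ.comp (by fun_prop)
    have hev : ∀ᶠ k' in 𝓝 k, Φ (k', s) < 0 := hc.continuousAt.eventually (gt_mem_nhds hcon)
    have hev2 : ∀ᶠ k' in 𝓝 k, k' < 1/4 := gt_mem_nhds hk3
    obtain ⟨ε, hε, hball⟩ := Metric.eventually_nhds_iff.mp (hev.and hev2)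
    obtain ⟨g1, g2⟩ := hball (y := k + ε / 2) (by
      rw [Real.dist_eq]; rw [abs_of_nonneg] <;> linarith)
    have hmem : (k + ε / 2, s) ∈ S :=
      ⟨⟨⟨by show (9/50:ℝ) ≤ k + ε/2; linarith, g2.le⟩, ⟨hs1, hs2⟩⟩, g1.le⟩
    have := hxmax hmem
    simp only at this
    have h5 : k + ε / 2 ≤ k := this
    linarith
  have hzero : Φ (k, m) = 0 := le_antisymm hneg (hnonneg m hm1 hm2)
  have hm1' : -(2/5) < m := by
    refine lt_of_le_of_ne hm1 ?_
    intro heq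
    have := hend k m hk1 hk2 (Or.inr heq.symm)
    linarith
  have hm2' : m < 2/5 := by
    refine lt_of_le_of_ne hm2 ?_
    intro heq
    have := hend k m hk1 hk2 (Or.inl heq)
    linarith
  obtain ⟨u1, l1, _, c, hc1, hc2, t1, w1⟩ := F1 k hk1 hk2
  obtain ⟨u2, l2, _, d', hd1, hd2, t2, w2⟩ := F2 k hk1 hk2
  refine ⟨k, B1 k, B2 k, c, m, -d', ⟨hk1, hk2, hc1, hc2, by linarith, by linarith, hm1', hm2',
    t1, u1, w1, ?_, ?_, ?_, l1, l2, ?_, ?_⟩⟩
  · linarith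
  · intro s hs
    have := u2 (-s) (by rw [abs_neg]; exact hs)
    simp only [neg_neg] at this
    linarith
  · intro s hs1 hs2
    have := w2 (-s) (by linarith) (by linarith)
    simp only [neg_neg] at this
    linarith
  · rw [hΦ' k m hk1 hk2 hm1 hm2] at hzero
    linarith
  · intro s hs
    obtain ⟨hs1, hs2⟩ := abs_le.mp hs
    have := hnonneg s hs1 hs2
    rw [hΦ' k s hk1 hk2 hs1 hs2] at this
    linarith

end Pool.Agent.H490R3.Sec
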