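import Mathlib
import Pool.Agent.H490R3.Sec.Zone1

set_option autoImplicit false

open Set Filter Topology

namespace Pool.Agent.H490R3.Sec

/-- clamp to `[m, d]` -/
noncomputable def cl (m d s : ℝ) : ℝ := max m (min s d)

theorem cl_cont (m d : ℝ) : Continuous (cl m d) := by unfold cl; fun_prop

theorem cl_of_mem {m d s : ℝ} (h1 : m ≤ s) (h2 : s ≤ d) : cl m d s = s := by
  unfold cl; rw [min_eq_left h2, max_eq_right h1]

theorem cl_mem {m d : ℝ} (h : m ≤ d) (s : ℝ) : m ≤ cl m d s ∧ cl m d s ≤ d := by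
  unfold cl
  exact ⟨le_max_left _ _, max_le h (min_le_right _ _)⟩

/-- The upper function. -/
noncomputable def Lp (n1 n2 : ℝ → ℝ) (k b1 b2 c m d : ℝ) (s : ℝ) : ℝ :=
  if s ≤ c then n2 s else if s ≤ m then b1 - k * s else if s ≤ d then
    1 / (1 / n1 (cl m d s) + 1 / n2 (cl m d s) - 1 / (b2 + k * cl m d s)) else n1 s

section
variable {n1 n2 : ℝ → ℝ} {k b1 b2 c m d : ℝ} (H : ZH n1 n2) (D : ZD n1 n2 k b1 b2 c m d)
include H D

theorem l1_pos {s : ℝ} (h : s ≤ 2/5) : 0 < b1 - k * s := by
  have h1 := D.l1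
  have h2 := D.hk1
  have h3 := D.hk2
  nlinarith [mul_nonneg (by linarith : 0 ≤ k) (by linarith : 0 ≤ 2/5 - s)]

theorem l2_pos {s : ℝ} (h : -(2/5) ≤ s) : 7/10 < b2 + k * s := by
  have h1 := D.l2
  have h2 := D.hk1
  have h3 := D.hk2
  nlinarith [mul_nonneg (by linarith : 0 ≤ k) (by linarith : 0 ≤ 2/5 + s)]

theorem den_pos {s : ℝ} (h1 : -(2/5) ≤ s) (h2 : s ≤ 11/20) :
    0 < 1 / n1 s + 1 / n2 s - 1 / (b2 + k * s) := by
  have e1 := H.h_lo (s := s) (by linarith) h2
  have e2 := l2_pos H D h1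
  have e3 : 1 / (b2 + k * s) ≤ 1 / (7/10) := one_div_le_one_div_of_le (by norm_num) e2.le
  norm_num at e3
  have e4 : (1:ℝ) / (b2 + k * s) = (b2 + k * s)⁻¹ := one_div _
  linarith

theorem Lp_le_c {s : ℝ} (h : s ≤ c) : Lp n1 n2 k b1 b2 c m d s = n2 s := by
  unfold Lp; rw [if_pos h]

theorem Lp_mid {s : ℝ} (h1 : c ≤ s) (h2 : s ≤ m) : Lp n1 n2 k b1 b2 c m d s = b1 - k * s := by
  unfold Lp
  rcases h1.eq_or_lt with h | h
  · subst h
    rw [if_pos le_rfl]
    linarith [D.t1]
  · rw [if_neg (not_le.mpr h), if_pos h2]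

theorem W_m : 1 / (1 / n1 m + 1 / n2 m - 1 / (b2 + k * m)) = b1 - k * m := by
  have h0 := D.D0
  have h1 := l1_pos H D D.hm2.le
  have : 1 / n1 m + 1 / n2 m - 1 / (b2 + k * m) = 1 / (b1 - k * m) := by linarith
  rw [this, one_div_one_div]

theorem W_d : 1 / (1 / n1 d + 1 / n2 d - 1 / (b2 + k * d)) = n1 d := by
  have h0 := D.t2
  have : b2 + k * d = n2 d := by linarith
  rw [this, add_sub_cancel_right, one_div_one_div]

theorem Lp_W {s : ℝ} (h1 : m ≤ s) (h2 : s ≤ d) :
    Lp n1 n2 k b1 b2 c m d s = 1 / (1 / n1 s + 1 / n2 s - 1 / (b2 + k * s)) := by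
  have hc := D.hc2
  have hm := D.hm1
  unfold Lp
  rw [if_neg (by linarith)]
  rcases h1.eq_or_lt with h | h
  · subst h
    rw [if_pos le_rfl, W_m H D]
  · rw [if_neg (not_le.mpr h), if_pos h2, cl_of_mem h1 h2]

theorem Lp_ge {s : ℝ} (h1 : d ≤ s) : Lp n1 n2 k b1 b2 c m d s = n1 s := by
  have hc := D.hc2
  have hm := D.hm2
  have hd := D.hd1
  rcases h1.eq_or_lt with h | h
  · subst h
    rw [Lp_W H D (by linarith) le_rfl, W_d H D]
  · unfold Lp
    rw [if_neg (by linarith), if_neg (by linarith), if_neg (by linarith)]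

theorem Lp_cont : Continuous (Lp n1 n2 k b1 b2 c m d) := by
  have hc1 := D.hc1
  have hc := D.hc2
  have hm := D.hm1
  have hm' := D.hm2
  have hd := D.hd1
  have hd2 := D.hd2
  have hmd : m ≤ d := by linarith
  have cW : Continuous (fun s => 1 / (1 / n1 (cl m d s) + 1 / n2 (cl m d s) -
      1 / (b2 + k * cl m d s))) := by
    have hcl := cl_cont m d
    have q1 : ∀ s, b2 + k * cl m d s ≠ 0 := fun s => by
      have := l2_pos H D (s := cl m d s) (by linarith [(cl_mem hmd s).1])
      linarith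
    have q2 : ∀ s, 1 / n1 (cl m d s) + 1 / n2 (cl m d s) - 1 / (b2 + k * cl m d s) ≠ 0 := fun s =>
      (den_pos H D (s := cl m d s) (by linarith [(cl_mem hmd s).1])
        (by linarith [(cl_mem hmd s).2])).ne'
    refine continuous_const.div ?_ q2
    refine ((continuous_const.div (H.c1.comp hcl) fun s => (H.p1 _).ne').add
      (continuous_const.div (H.c2.comp hcl) fun s => (H.p2 _).ne')).sub ?_
    exact continuous_const.div (by fun_prop) q1
  unfold Lp
  refine Continuous.if_le H.c2 ?_ continuous_id continuous_const ?_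
  · refine Continuous.if_le (by fun_prop) ?_ continuous_id continuous_const ?_
    · refine Continuous.if_le cW H.c1 continuous_id continuous_const ?_
      intro s hs
      subst hs
      rw [cl_of_mem hmd le_rfl, W_d H D]
    · intro s hs
      subst hs
      rw [if_pos hmd, cl_of_mem le_rfl hmd, W_m H D]
  · intro s hs
    subst hs
    rw [if_pos (by linarith)]
    linarith [D.t1]

theorem Lp_pos (s : ℝ) : 0 < Lp n1 n2 k b1 b2 c m d s := by
  have hm := D.hm1
  have hm' := D.hm2
  have hd2 := D.hd2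
  rcases le_total s c with h | h
  · rw [Lp_le_c H D h]; exact H.p2 s
  rcases le_total s m with h' | h'
  · rw [Lp_mid H D h h']; exact l1_pos H D (by linarith)
  rcases le_total s d with h'' | h''
  · rw [Lp_W H D h' h'']
    exact one_div_pos.mpr (den_pos H D (by linarith) (by linarith))
  · rw [Lp_ge H D h'']; exact H.p1 s

theorem Lp_ls (s : ℝ) : LS (Lp n1 n2 k b1 b2 c m d) s := by
  have hk1 := D.hk1
  have hk2 := D.hk2
  have hc1 := D.hc1
  have hc := D.hc2
  have hm := D.hm1
  have hm' := D.hm2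
  have hd := D.hd1
  have hd2 := D.hd2
  rcases lt_trichotomy s c with h | h | h
  · -- s < c
    refine (H.v2.ls s).congr ?_
    filter_upwards [Iio_mem_nhds h] with t ht
    rw [Lp_le_c H D (le_of_lt ht)]
  · -- s = c
    subst h
    refine LS.of_le (ls_affine b1 (-k) s) ?_ ?_
    · rw [Lp_le_c H D le_rfl]
      linarith [D.t1]
    · filter_upwards [Ioo_mem_nhds (show -(4/5) < s by linarith) (show s < m by linarith)] with t ht
      rcases le_total t s with h | h
      · rw [Lp_le_c H D h]
        have := D.u1 t (abs_le.mpr ⟨ht.1.le, by linarith [ht.2]⟩)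
        linarith
      · rw [Lp_mid H D h ht.2.le]
        linarith
  rcases lt_trichotomy s m with h' | h' | h'
  · -- c < s < m
    refine (ls_affine b1 (-k) s).congr ?_
    filter_upwards [Ioo_mem_nhds h h'] with t ht
    rw [Lp_mid H D ht.1.le ht.2.le]
    ring
  · -- s = m
    subst h'
    refine LS.of_le (ls_affine b1 (-k) s) ?_ ?_
    · rw [Lp_mid H D h.le le_rfl]; ring
    · filter_upwards [Ioo_mem_nhds h (show s < 2/5 by linarith)] with t ht
      rcases le_total t s with h1 | h1
      · rw [Lp_mid H D ht.1.le h1]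
        linarith
      · rw [Lp_W H D h1 (by linarith [ht.2])]
        have e1 := D.D1 t (abs_le.mpr ⟨by linarith, ht.2.le⟩)
        have e2 := l1_pos H D (s := t) (by linarith [ht.2])
        have e3 := den_pos H D (s := t) (by linarith) (by linarith [ht.2])
        have e4 : 1 / n1 t + 1 / n2 t - 1 / (b2 + k * t) ≤ 1 / (b1 - k * t) := by linarith
        calc b1 + -k * t = 1 / (1 / (b1 - k * t)) := by rw [one_div_one_div]; ring
          _ ≤ _ := one_div_le_one_div_of_le e3 e4
  rcases lt_trichotomy s d with h'' | h'' | h''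
  · -- m < s < d
    obtain ⟨α1, hα1⟩ := H.v1 s
    obtain ⟨α2, hα2⟩ := H.v2 s
    have f1 := H.n1_slope (s := s) (by linarith) (by linarith) hα1
    have f2 := H.n2_slope' (s := s) (by linarith) (by linarith) hα2
    have f3 : α2 < k := by
      have g1 := hα2 d
      have g2 := D.w2 s (by linarith) h''
      have g3 := D.t2
      have g4 : α2 * (d - s) < k * (d - s) := by linarith
      exact lt_of_mul_lt_mul_right g4 (by linarith)
    have f4 := l2_pos H D (s := s) (by linarith)
    have f5 := D.u2 s (abs_le.mpr ⟨by linarith, by linarith⟩)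
    have f6 := H.n2_up' (s := s) (by linarith) (by linarith)
    have f7 := H.n1_lo (s := s) (by linarith) (by linarith)
    have f8 := H.n2_lo (s := s) (by linarith) (by linarith)
    have p2 := H.p2 s
    have p1 := H.p1 s
    have hy : k / n2 s ≤ k / (b2 + k * s) := by
      apply div_le_div_of_nonneg_left (by linarith) (by linarith) (by linarith)
    have hx2 : α2 / n2 s < k / n2 s := div_lt_div_of_pos_right f3 p2
    have hLS := ls_W (n1 := n1) (n2 := n2) (s₀ := s) (l0 := b2 + k * s) (lam := k)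
      H.c1.continuousAt H.c2.continuousAt hα1 hα2 p1 p2 (by linarith)
      (den_pos H D (by linarith) (by linarith)) (by linarith) (by
        intro heq
        linarith) (by
        set x1 := α1 / n1 s with hx1
        set x2 := α2 / n2 s with hx2'
        set y := k / (b2 + k * s) with hy'
        have g1 : x1 ≤ 2/1000 := by
          rw [hx1, div_le_iff₀ p1]
          have := (abs_le.mp f1).2
          nlinarith
        have g2 : -(2/1000) ≤ x2 := by
          rw [hx2', le_div_iff₀ p2]
          nlinarith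
        have g3 : 1/10 ≤ y := by
          refine le_trans ?_ hy
          rw [le_div_iff₀ p2]
          nlinarith
        have g4 : 0 ≤ (y - x2) * (x2 + y - 2 * x1) :=
          mul_nonneg (by linarith) (by linarith)
        nlinarith)
    refine hLS.congr ?_
    filter_upwards [Ioo_mem_nhds h' h''] with t ht
    rw [Lp_W H D ht.1.le ht.2.le]
    congr 3
    ring
  · -- s = d
    subst h''
    refine LS.of_le (H.v1.ls s) ?_ ?_
    · rw [Lp_ge H D le_rfl]
    · filter_upwards [Ioo_mem_nhds h' (show s < 4/5 by linarith)] with t ht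
      rcases le_total t s with h1 | h1
      · rw [Lp_W H D ht.1.le h1]
        have e1 := D.u2 t (abs_le.mpr ⟨by linarith [ht.1], ht.2.le⟩)
        have e2 := l2_pos H D (s := t) (by linarith [ht.1])
        have e3 := den_pos H D (s := t) (by linarith [ht.1]) (by linarith)
        have e5 : 1 / n2 t ≤ 1 / (b2 + k * t) := one_div_le_one_div_of_le (by linarith) (by linarith)
        have e4 : 1 / n1 t + 1 / n2 t - 1 / (b2 + k * t) ≤ 1 / n1 t := by linarith
        calc n1 t = 1 / (1 / n1 t) := by rw [one_div_one_div]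
          _ ≤ _ := one_div_le_one_div_of_le e3 e4
      · rw [Lp_ge H D h1]
  · -- d < s
    refine (H.v1.ls s).congr ?_
    filter_upwards [Ioi_mem_nhds h''] with t ht
    rw [Lp_ge H D (le_of_lt ht)]

end

theorem LS.comp_neg {f : ℝ → ℝ} {t : ℝ} (h : LS f (-t)) : LS (fun s => f (-s)) t := by
  obtain ⟨p, hp⟩ := h
  refine ⟨-p, ?_⟩
  have h1 : Tendsto (fun s : ℝ => -s) (𝓝 t) (𝓝 (-t)) := continuous_neg.tendsto t
  filter_upwards [h1.eventually hp] with s hs
  nlinarith

/-- The result for one zone. -/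
theorem zone {n1 n2 : ℝ → ℝ} (H : ZH n1 n2) : ∃ P M : ℝ → ℝ,
    Continuous P ∧ Continuous M ∧ (∀ s, LS P s) ∧ (∀ s, LS M s) ∧ (∀ s, 0 < P s) ∧ (∀ s, 0 < M s) ∧
    (∀ s, 1 / P s + 1 / M s = 1 / n1 s + 1 / n2 s) ∧
    (∀ s, s ≤ -(11/20) → P s = n2 s ∧ M s = n1 s) ∧ (∀ s, 11/20 ≤ s → P s = n1 s ∧ M s = n2 s) := by
  obtain ⟨k, b1, b2, c, m, d, D⟩ := exists_ZD H
  have H' := H.neg
  have D' := D.neg
  have hc1 := D.hc1
  have hc := D.hc2
  have hm := D.hm1
  have hm' := D.hm2
  have hd := D.hd1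
  have hd2 := D.hd2
  refine ⟨Lp n1 n2 k b1 b2 c m d,
    fun s => Lp (fun s => n1 (-s)) (fun s => n2 (-s)) k b2 b1 (-d) (-m) (-c) (-s),
    Lp_cont H D, (Lp_cont H' D').comp continuous_neg, Lp_ls H D, fun s => (Lp_ls H' D' _).comp_neg,
    Lp_pos H D, fun s => Lp_pos H' D' _, ?_, ?_, ?_⟩
  · intro s
    show 1 / Lp n1 n2 k b1 b2 c m d s +
      1 / Lp (fun s => n1 (-s)) (fun s => n2 (-s)) k b2 b1 (-d) (-m) (-c) (-s) =
      1 / n1 s + 1 / n2 s
    rcases le_total s c with h | h
    · rw [Lp_le_c H D h, Lp_ge H' D' (by linarith)]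
      simp only [neg_neg]
      ring
    rcases le_total s m with h' | h'
    · have e1 := den_pos H' D' (s := -s) (by linarith) (by linarith)
      rw [Lp_mid H D h h', Lp_W H' D' (by linarith) (by linarith), one_div_one_div]
      simp only [neg_neg]
      rw [show b1 + k * -s = b1 - k * s by ring]
      ring
    rcases le_total s d with h'' | h''
    · have e1 := den_pos H D (s := s) (by linarith) (by linarith)
      rw [Lp_mid H' D' (by linarith) (by linarith), Lp_W H D h' h'', one_div_one_div]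
      rw [show b2 - k * -s = b2 + k * s by ring]
      ring
    · rw [Lp_ge H D h'', Lp_le_c H' D' (by linarith)]
      simp only [neg_neg]
  · intro s hs
    refine ⟨Lp_le_c H D (by linarith), ?_⟩
    show Lp (fun s => n1 (-s)) (fun s => n2 (-s)) k b2 b1 (-d) (-m) (-c) (-s) = n1 s
    rw [Lp_ge H' D' (by linarith)]
    simp only [neg_neg]
  · intro s hs
    refine ⟨Lp_ge H D (by linarith), ?_⟩
    show Lp (fun s => n1 (-s)) (fun s => n2 (-s)) k b2 b1 (-d) (-m) (-c) (-s) = n2 s
    rw [Lp_le_c H' D' (by linarith)]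
    simp only [neg_neg]

end Pool.Agent.H490R3.Sec
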