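import Mathlib
import Pool.Agent.H490R3.Sec.Zone2

set_option autoImplicit false

open Set Filter Topology

namespace Pool.Agent.H490R3.Sec

/-- The Euclidean plane. -/
abbrev E2 : Type := EuclideanSpace ℝ (Fin 2)

/-- Gauge functions of convex bodies with the origin in the interior. -/
structure IsG (g : E2 → ℝ) : Prop where
  sub : ∀ v w, g (v + w) ≤ g v + g w
  hom : ∀ (t : ℝ) (v : E2), 0 ≤ t → g (t • v) = t * g v
  pos : ∀ v, v ≠ 0 → 0 < g v
  cont : Continuous g

theorem IsG.zero {g : E2 → ℝ} (h : IsG g) : g 0 = 0 := by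
  have := h.hom 0 0 le_rfl
  rwa [zero_smul, zero_mul] at this

theorem IsG.nonneg {g : E2 → ℝ} (h : IsG g) (v : E2) : 0 ≤ g v := by
  by_cases hv : v = 0
  · rw [hv, h.zero]
  · exact (h.pos v hv).le

theorem IsG.neg {g : E2 → ℝ} (h : IsG g) : IsG (fun v => g (-v)) where
  sub := fun v w => by rw [neg_add]; exact h.sub _ _
  hom := fun t v ht => by rw [← smul_neg]; exact h.hom t _ ht
  pos := fun v hv => h.pos _ (neg_ne_zero.mpr hv)
  cont := h.cont.comp continuous_neg

/-- supporting linear functional -/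
theorem IsG.supp {g : E2 → ℝ} (h : IsG g) (z : E2) :
    ∃ φ : E2 →ₗ[ℝ] ℝ, φ z = g z ∧ ∀ v, φ v ≤ g v := by
  by_cases hz : z = 0
  · subst hz
    refine ⟨0, ?_, fun v => ?_⟩
    · rw [h.zero]; simp
    · simpa using h.nonneg v
  · set L : E2 →ₗ.[ℝ] ℝ := LinearPMap.mkSpanSingleton z (g z) hz with hL
    have hdom : L.domain = Submodule.span ℝ {z} := rfl
    have happ : ∀ (t : ℝ) (ht : t • z ∈ L.domain), L ⟨t • z, ht⟩ = t * g z := fun t ht =>
      LinearPMap.mkSpanSingleton'_apply _ _ _ _ _
    obtain ⟨φ, h1, h2⟩ := exists_extension_of_le_sublinear L g (fun c hc x => h.hom c x hc.le)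
      h.sub (by
        rintro ⟨x, hx⟩
        have hx' : x ∈ Submodule.span ℝ {z} := hx
        obtain ⟨t, rfl⟩ := Submodule.mem_span_singleton.mp hx'
        rw [happ t hx]
        rcases le_total 0 t with ht | ht
        · exact (h.hom t z ht).ge
        · have := h.nonneg z
          have := h.nonneg (t • z)
          show t * g z ≤ g (t • z)
          nlinarith)
    refine ⟨φ, ?_, h2⟩
    have hmem : (1:ℝ) • z ∈ L.domain := by
      rw [hdom, one_smul]
      exact Submodule.mem_span_singleton_self z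
    have := h1 ⟨(1:ℝ) • z, hmem⟩
    rw [happ 1 hmem, one_mul] at this
    simpa using this

theorem IsG.cvx {g : E2 → ℝ} (h : IsG g) (a b : E2) : Cvx (fun s => g (a + s • b)) := by
  intro s₀
  obtain ⟨φ, h1, h2⟩ := h.supp (a + s₀ • b)
  refine ⟨φ b, fun s => ?_⟩
  show g (a + s₀ • b) + φ b * (s - s₀) ≤ g (a + s • b)
  rw [← h1]
  refine le_trans (le_of_eq ?_) (h2 _)
  simp only [map_add, map_smul, smul_eq_mul]
  ring

/-- local linear support in the plane -/
def LS2 (G : E2 → ℝ) (v : E2) : Prop := ∃ φ : E2 →ₗ[ℝ] ℝ, φ v = G v ∧ ∀ᶠ w in 𝓝 v, φ w ≤ G w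

theorem lin_cont (X : E2 →ₗ[ℝ] ℝ) : Continuous X := LinearMap.continuous_of_finiteDimensional X

theorem region {G : E2 → ℝ} {f : ℝ → ℝ} (X Y : E2 →ₗ[ℝ] ℝ) {v : E2} (hv : 0 < X v)
    (hG : ∀ᶠ w in 𝓝 v, G w = X w * f (Y w / X w)) (hf : Continuous f) (hls : LS f (Y v / X v)) :
    ContinuousAt G v ∧ LS2 G v := by
  have hX := lin_cont X
  have hY := lin_cont Y
  have hq : ContinuousAt (fun w => Y w / X w) v :=
    hY.continuousAt.div hX.continuousAt hv.ne'
  refine ⟨?_, ?_⟩
  · have h1 : ContinuousAt (fun w => X w * f (Y w / X w)) v :=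
      hX.continuousAt.mul (ContinuousAt.comp (f := fun w => Y w / X w) hf.continuousAt hq)
    exact h1.congr (hG.mono fun w hw => hw.symm)
  · obtain ⟨p, hp⟩ := hls
    set s₀ := Y v / X v with hs₀
    refine ⟨(f s₀ - p * s₀) • X + p • Y, ?_, ?_⟩
    · rw [hG.self_of_nhds]
      simp only [LinearMap.add_apply, LinearMap.smul_apply, smul_eq_mul]
      rw [← hs₀]
      have : Y v = s₀ * X v := by rw [hs₀]; field_simp
      rw [this]; ring
    · filter_upwards [hG, hq.eventually hp, hX.continuousAt.eventually (lt_mem_nhds hv)] with w h1 h2 h3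
      rw [h1]
      simp only [LinearMap.add_apply, LinearMap.smul_apply, smul_eq_mul]
      have e1 : (f s₀ - p * s₀) * X w + p * Y w = X w * (f s₀ + p * (Y w / X w - s₀)) := by
        field_simp
        ring
      rw [e1]
      exact mul_le_mul_of_nonneg_left h2 h3.le

theorem LS2.of_isG {g G : E2 → ℝ} (h : IsG g) {v : E2} (hG : ∀ᶠ w in 𝓝 v, G w = g w) :
    ContinuousAt G v ∧ LS2 G v := by
  refine ⟨h.cont.continuousAt.congr (hG.mono fun w hw => hw.symm), ?_⟩
  obtain ⟨φ, h1, h2⟩ := h.supp v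
  refine ⟨φ, by rw [h1, hG.self_of_nhds], ?_⟩
  filter_upwards [hG] with w hw
  rw [hw]
  exact h2 w

/-- Global subadditivity from local supports. -/
theorem sub_of_LS2 {G : E2 → ℝ} (hom : ∀ (t : ℝ) (v : E2), 0 ≤ t → G (t • v) = t * G v)
    (pos : ∀ v, v ≠ 0 → 0 < G v) (hc : ∀ v, v ≠ 0 → ContinuousAt G v) (hl : ∀ v, v ≠ 0 → LS2 G v)
    (v w : E2) : G (v + w) ≤ G v + G w := by
  have G0 : G 0 = 0 := by
    have := hom 0 0 le_rfl
    rwa [zero_smul, zero_mul] at this
  have nn : ∀ v, 0 ≤ G v := fun v => by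
    by_cases hv : v = 0
    · rw [hv, G0]
    · exact (pos v hv).le
  by_cases hz : ∃ t ∈ Icc (0:ℝ) 1, (1 - t) • v + t • w = 0
  · obtain ⟨t, ⟨ht0, ht1⟩, ht⟩ := hz
    rcases le_total t (1/2) with h2 | h2
    · -- v is a multiple of w
      have h1t : 0 < 1 - t := by linarith
      have e1 : v = (-(t / (1 - t))) • w := by
        have e2 : (1 - t) • v = -(t • w) := eq_neg_of_add_eq_zero_left ht
        calc v = (1 - t)⁻¹ • ((1 - t) • v) := by rw [smul_smul, inv_mul_cancel₀ h1t.ne', one_smul]
          _ = _ := by rw [e2, smul_neg, smul_smul, neg_smul]; congr 2; field_simp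
      set l := t / (1 - t) with hl'
      have hl0 : 0 ≤ l := by positivity
      have hl1 : l ≤ 1 := by rw [hl', div_le_one h1t]; linarith
      have e3 : v + w = (1 - l) • w := by rw [e1]; module
      rw [e3, hom _ _ (by linarith)]
      have := nn v
      have := nn w
      nlinarith
    · have h1t : 0 < t := by linarith
      have e1 : w = (-((1 - t) / t)) • v := by
        have e2 : t • w = -((1 - t) • v) := eq_neg_of_add_eq_zero_right ht
        calc w = t⁻¹ • (t • w) := by rw [smul_smul, inv_mul_cancel₀ h1t.ne', one_smul]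
          _ = _ := by rw [e2, smul_neg, smul_smul, neg_smul]; congr 2; field_simp
      set l := (1 - t) / t with hl'
      have hl0 : 0 ≤ l := div_nonneg (by linarith) h1t.le
      have hl1 : l ≤ 1 := by rw [hl', div_le_one h1t]; linarith
      have e3 : v + w = (1 - l) • v := by rw [e1]; module
      rw [e3, hom _ _ (by linarith)]
      have := nn v
      have := nn w
      nlinarith
  · push Not at hz
    set z : ℝ → E2 := fun t => (1 - t) • v + t • w with hzdef
    have hzc : Continuous z := by fun_prop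
    have hfc : ContinuousOn (fun t => G (z t)) (Icc 0 1) := by
      intro t ht
      have h1 : ContinuousAt G (z t) := hc _ (hz t ht)
      exact (ContinuousAt.comp h1 hzc.continuousAt).continuousWithinAt
    have hfl : ∀ t ∈ Ioo (0:ℝ) 1, LS (fun t => G (z t)) t := by
      intro t ht
      obtain ⟨φ, h1, h2⟩ := hl _ (hz t ⟨ht.1.le, ht.2.le⟩)
      refine ⟨φ w - φ v, ?_⟩
      filter_upwards [hzc.continuousAt.eventually h2] with s hs
      refine le_trans (le_of_eq ?_) hs
      show G ((1 - t) • v + t • w) + (φ w - φ v) * (s - t) = φ ((1 - s) • v + s • w)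
      rw [← h1]
      simp only [map_add, map_smul, smul_eq_mul]
      ring
    have := le_chord hfc hfl (1/2) ⟨by norm_num, by norm_num⟩
    simp only [hzdef] at this
    have e1 : ((1 - (1/2:ℝ)) • v + (1/2:ℝ) • w) = (1/2:ℝ) • (v + w) := by module
    rw [e1, hom _ _ (by norm_num)] at this
    simp only [sub_zero, one_smul, zero_smul, add_zero, sub_self, zero_add] at this
    linarith

end Pool.Agent.H490R3.Sec
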