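import Mathlib
import Pool.Agent.H490R3.Sec.Plane

set_option autoImplicit false

open Set Filter Topology Metric TopologicalSpace MeasureTheory

namespace Pool.Agent.H490R3.Sec

section complete

variable {E : Type*} [NormedAddCommGroup E] [NormedSpace ℝ E]

/-- Forget convexity. -/
def toNC (K : ConvexBody E) : NonemptyCompacts E :=
  ⟨⟨(K : Set E), K.isCompact⟩, K.nonempty⟩

lemma isometry_toNC : Isometry (toNC (E := E)) := by
  intro K L
  rw [← ConvexBody.hausdorffEDist_coe]
  rfl

lemma isClosed_range_toNC : IsClosed (range (toNC (E := E))) := by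
  have hr : range (toNC (E := E)) =
      {K : NonemptyCompacts E | Convex ℝ (K : Set E)} := by
    ext K
    constructor
    · rintro ⟨L, rfl⟩
      exact L.convex
    · intro hK
      exact ⟨⟨(K : Set E), hK, K.isCompact, K.nonempty⟩, rfl⟩
  rw [hr, ← isSeqClosed_iff_isClosed]
  intro u K hu hlim
  have hclosed : IsClosed (K : Set E) := K.isCompact.isClosed
  intro x hx y hy a b ha hb hab
  rw [← hclosed.closure_eq, Metric.mem_closure_iff]
  intro ε hε
  have h1 := (Metric.tendsto_atTop.mp hlim) (ε / 2) (by positivity)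
  obtain ⟨n, hn⟩ := h1
  have h2 := hn n le_rfl
  rw [dist_comm, NonemptyCompacts.dist_eq] at h2
  have hfin : hausdorffEDist (K : Set E) (u n : Set E) ≠ ⊤ :=
    hausdorffEDist_ne_top_of_nonempty_of_bounded K.nonempty (u n).nonempty
      K.isCompact.isBounded (u n).isCompact.isBounded
  obtain ⟨x', hx', hxx⟩ := exists_dist_lt_of_hausdorffDist_lt hx h2 hfin
  obtain ⟨y', hy', hyy⟩ := exists_dist_lt_of_hausdorffDist_lt hy h2 hfin
  have h3 : a • x' + b • y' ∈ (u n : Set E) := hu n hx' hy' ha hb hab
  obtain ⟨z, hz, hzz⟩ := exists_dist_lt_of_hausdorffDist_lt' h3 h2 hfin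
  refine ⟨z, hz, ?_⟩
  calc dist (a • x + b • y) z ≤ dist (a • x + b • y) (a • x' + b • y')
        + dist (a • x' + b • y') z := dist_triangle _ _ _
    _ < ε / 2 + ε / 2 := by
        refine add_lt_add_of_le_of_lt ?_ (by rw [dist_comm]; exact hzz)
        calc dist (a • x + b • y) (a • x' + b • y') ≤ dist (a • x) (a • x') + dist (b • y) (b • y') :=
              dist_add_add_le _ _ _ _
          _ ≤ a * (ε / 2) + b * (ε / 2) := by
              rw [dist_smul₀, dist_smul₀, Real.norm_of_nonneg ha, Real.norm_of_nonneg hb]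
              gcongr
          _ = ε / 2 := by rw [← add_mul, hab, one_mul]
    _ = ε := by ring

theorem completeCB [CompleteSpace E] : CompleteSpace (ConvexBody E) := by
  rw [completeSpace_iff_isComplete_range isometry_toNC.isUniformInducing]
  exact isClosed_range_toNC.isComplete

end complete

/-- Interior membership is an open condition on the body. -/
theorem isOpen_mem_interior (p : E2) : IsOpen {K : ConvexBody E2 | p ∈ interior (K : Set E2)} := by
  rw [Metric.isOpen_iff]
  intro K₀ hK₀
  obtain ⟨ρ, hρ, hball⟩ := Metric.mem_nhds_iff.mp (mem_interior_iff_mem_nhds.mp hK₀)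
  refine ⟨ρ / 4, by positivity, ?_⟩
  intro K hK
  rw [Metric.mem_ball, dist_comm] at hK
  show p ∈ interior (K : Set E2)
  rw [mem_interior_iff_mem_nhds, Metric.mem_nhds_iff]
  refine ⟨ρ / 4, by positivity, ?_⟩
  intro q hq
  by_contra hqK
  obtain ⟨f, u, hfu, hfq⟩ := geometric_hahn_banach_closed_point K.convex K.isClosed hqK
  -- represent f by a vector
  set n : E2 := (InnerProductSpace.toDual ℝ E2).symm f with hn
  have hf : ∀ x, f x = inner ℝ n x := fun x => by
    rw [hn, InnerProductSpace.toDual_symm_apply]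
  have hn0 : n ≠ 0 := by
    intro h0
    obtain ⟨x, hx⟩ := K.nonempty
    have a := hfu x hx
    rw [hf, h0, inner_zero_left] at a hfq
    linarith
  have hnn : 0 < ‖n‖ := norm_pos_iff.mpr hn0
  set y : E2 := p + (ρ / 2 / ‖n‖) • n with hy
  have hyK : y ∈ (K₀ : Set E2) := by
    apply hball
    rw [Metric.mem_ball, hy, dist_eq_norm, add_sub_cancel_left, norm_smul, Real.norm_of_nonneg (by positivity),
      div_mul_cancel₀ _ hnn.ne']
    linarith
  rw [← ConvexBody.hausdorffDist_coe] at hK
  obtain ⟨x, hx, hxy⟩ := exists_dist_lt_of_hausdorffDist_lt hyK hK ConvexBody.hausdorffEDist_ne_top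
  have a1 := hfu x hx
  have a2 : f x = f y - f (y - x) := by rw [map_sub]; ring
  have a3 : f (y - x) ≤ ‖n‖ * (ρ / 4) := by
    rw [hf]
    calc inner ℝ n (y - x) ≤ ‖n‖ * ‖y - x‖ := real_inner_le_norm _ _
      _ ≤ ‖n‖ * (ρ / 4) := by
          rw [dist_eq_norm] at hxy
          gcongr
  have a4 : f y = f p + ‖n‖ * (ρ / 2) := by
    rw [hy, map_add, map_smul, smul_eq_mul, hf n, real_inner_self_eq_norm_sq]
    field_simp
  have a5 : f q ≤ f p + ‖n‖ * (ρ / 4) := by
    have : f q = f p + f (q - p) := by rw [map_sub]; ring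
    rw [this, hf (q - p)]
    have h1 : inner ℝ n (q - p) ≤ ‖n‖ * ‖q - p‖ := real_inner_le_norm _ _
    have h2 : ‖q - p‖ ≤ ρ / 4 := by
      rw [Metric.mem_ball, dist_eq_norm] at hq
      exact hq.le
    have h3 : ‖n‖ * ‖q - p‖ ≤ ‖n‖ * (ρ / 4) := by gcongr
    linarith
  linarith

/-- Non-membership is an open condition. -/
theorem isOpen_not_mem (p : E2) : IsOpen {K : ConvexBody E2 | p ∉ (K : Set E2)} := by
  rw [Metric.isOpen_iff]
  intro K₀ hK₀
  have hpos : 0 < infDist p (K₀ : Set E2) :=
    (K₀.isClosed.notMem_iff_infDist_pos K₀.nonempty).mp hK₀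
  refine ⟨infDist p (K₀ : Set E2), hpos, ?_⟩
  intro K hK hpK
  rw [Metric.mem_ball, ← ConvexBody.hausdorffDist_coe] at hK
  obtain ⟨x, hx, hxy⟩ := exists_dist_lt_of_hausdorffDist_lt hpK hK ConvexBody.hausdorffEDist_ne_top
  have := infDist_le_dist_of_mem hx (x := p)
  linarith

/-- The space of planar bodies with the origin in the interior. -/
abbrev XX : Type := {K : ConvexBody E2 // (0 : E2) ∈ interior (K : Set E2)}

theorem gauge_isG (K : XX) : IsG (gauge (K.1 : Set E2)) where
  sub := gauge_add_le K.1.convex (absorbent_nhds_zero (mem_interior_iff_mem_nhds.mp K.2))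
  hom := fun t v ht => by
    have := gauge_smul_of_nonneg ht (s := (K.1 : Set E2)) v
    simpa using this
  pos := fun v hv => (gauge_pos (absorbent_nhds_zero (mem_interior_iff_mem_nhds.mp K.2))
    ((NormedSpace.isVonNBounded_iff ℝ).mpr K.1.isBounded)).mpr hv
  cont := continuous_gauge K.1.convex (mem_interior_iff_mem_nhds.mp K.2)

theorem gauge_le_one (K : XX) (v : E2) : v ∈ (K.1 : Set E2) ↔ gauge (K.1 : Set E2) v ≤ 1 := by
  rw [gauge_le_one_iff_mem_closure K.1.convex (mem_interior_iff_mem_nhds.mp K.2),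
    K.1.isClosed.closure_eq]

theorem gauge_lt_one (K : XX) (v : E2) :
    v ∈ interior (K.1 : Set E2) ↔ gauge (K.1 : Set E2) v < 1 :=
  (gauge_lt_one_iff_mem_interior K.1.convex (mem_interior_iff_mem_nhds.mp K.2)).symm

theorem cont_gauge (v : E2) : Continuous (fun K : XX => gauge (K.1 : Set E2) v) := by
  rw [continuous_iff_continuousAt]
  intro K₀
  rw [ContinuousAt, tendsto_order]
  constructor
  · intro a ha
    rcases lt_or_ge a 0 with h | h
    · exact Eventually.of_forall fun K => lt_of_lt_of_le h (gauge_nonneg _)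
    · set b := (a + gauge (K₀.1 : Set E2) v) / 2 with hb
      have hb0 : 0 < b := by linarith
      have hab : a < b := by linarith
      have hbg : b < gauge (K₀.1 : Set E2) v := by linarith
      have hnot : (1 / b) • v ∉ (K₀.1 : Set E2) := by
        rw [gauge_le_one, (gauge_isG K₀).hom _ _ (by positivity)]
        rw [not_le, one_div, ← div_eq_inv_mul, one_lt_div hb0]
        exact hbg
      have hev : ∀ᶠ K : XX in 𝓝 K₀, (1 / b) • v ∉ (K.1 : Set E2) :=
        (continuous_subtype_val.continuousAt (x := K₀)).eventually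
          ((isOpen_not_mem ((1 / b) • v)).mem_nhds hnot)
      filter_upwards [hev] with K hK
      rw [gauge_le_one, (gauge_isG K).hom _ _ (by positivity), not_le, one_div, ← div_eq_inv_mul,
        one_lt_div hb0] at hK
      linarith
  · intro b hb
    have hb0 : 0 < b := lt_of_le_of_lt (gauge_nonneg _) hb
    have hin : (1 / b) • v ∈ interior (K₀.1 : Set E2) := by
      rw [gauge_lt_one, (gauge_isG K₀).hom _ _ (by positivity), one_div, ← div_eq_inv_mul,
        div_lt_one hb0]
      exact hb
    have hev : ∀ᶠ K : XX in 𝓝 K₀, (1 / b) • v ∈ interior (K.1 : Set E2) :=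
      (continuous_subtype_val.continuousAt (x := K₀)).eventually
        ((isOpen_mem_interior ((1 / b) • v)).mem_nhds hin)
    filter_upwards [hev] with K hK
    rwa [gauge_lt_one, (gauge_isG K).hom _ _ (by positivity), one_div, ← div_eq_inv_mul,
      div_lt_one hb0] at hK

/-- A body from a gauge function. -/
theorem IsG.lower {G : E2 → ℝ} (h : IsG G) : ∃ c : ℝ, 0 < c ∧ ∀ v, c * ‖v‖ ≤ G v := by
  have hne : (sphere (0 : E2) 1).Nonempty := ⟨EuclideanSpace.single 0 1, by simp⟩
  obtain ⟨u, hu, hmin⟩ := (isCompact_sphere (0 : E2) 1).exists_isMinOn hne h.cont.continuousOn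
  have hu0 : u ≠ 0 := by
    intro h0
    rw [h0] at hu
    simp at hu
  refine ⟨G u, h.pos u hu0, fun v => ?_⟩
  by_cases hv : v = 0
  · subst hv
    rw [h.zero]; simp
  have hvn : 0 < ‖v‖ := norm_pos_iff.mpr hv
  have e1 : G u ≤ G (‖v‖⁻¹ • v) := by
    apply hmin
    simp [norm_smul, hvn.ne']
  rw [h.hom _ _ (by positivity)] at e1
  calc G u * ‖v‖ ≤ (‖v‖⁻¹ * G v) * ‖v‖ := by gcongr
    _ = G v := by field_simp

noncomputable def IsG.body {G : E2 → ℝ} (h : IsG G) : ConvexBody E2 where
  carrier := {v | G v ≤ 1}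
  convex' := by
    intro x hx y hy a b ha hb hab
    simp only [mem_ofPred_eq] at hx hy ⊢
    calc G (a • x + b • y) ≤ G (a • x) + G (b • y) := h.sub _ _
      _ = a * G x + b * G y := by rw [h.hom _ _ ha, h.hom _ _ hb]
      _ ≤ a * 1 + b * 1 := by gcongr
      _ = 1 := by rw [mul_one, mul_one, hab]
  isCompact' := by
    obtain ⟨c, hc, hlow⟩ := h.lower
    apply (isCompact_closedBall (0 : E2) (1 / c)).of_isClosed_subset
    · exact isClosed_le h.cont continuous_const
    · intro v hv
      simp only [mem_ofPred_eq] at hv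
      rw [mem_closedBall_zero_iff, le_div_iff₀ hc]
      have := hlow v
      linarith
  nonempty' := ⟨0, by show G 0 ≤ 1; rw [h.zero]; norm_num⟩

theorem IsG.mem_body {G : E2 → ℝ} (h : IsG G) (v : E2) : v ∈ (h.body : Set E2) ↔ G v ≤ 1 := Iff.rfl

theorem IsG.interior_body {G : E2 → ℝ} (h : IsG G) : (0 : E2) ∈ interior (h.body : Set E2) := by
  rw [mem_interior]
  refine ⟨{v | G v < 1}, ?_, isOpen_lt h.cont continuous_const, ?_⟩
  · intro v hv
    simp only [mem_ofPred_eq] at hv
    exact hv.le
  · show G 0 < 1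
    rw [h.zero]; norm_num

/-- The length of a central chord. -/
theorem chord {G : E2 → ℝ} (h : IsG G) (C : Set E2) (hC : ∀ v, v ∈ C ↔ G v ≤ 1) (u : E2) (hu : u ≠ 0) :
    Measure.hausdorffMeasure (1 : ℝ) (C ∩ (Submodule.span ℝ {u} : Set E2)) =
      ENNReal.ofReal ((1 / G u + 1 / G (-u)) * ‖u‖) := by
  have p1 := h.pos u hu
  have p2 := h.pos (-u) (neg_ne_zero.mpr hu)
  have hset : C ∩ (Submodule.span ℝ {u} : Set E2) = segment ℝ (-(1 / G (-u)) • u) ((1 / G u) • u) := by
    ext v
    constructor
    · rintro ⟨hv1, hv2⟩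
      rw [hC] at hv1
      obtain ⟨t, rfl⟩ := Submodule.mem_span_singleton.mp hv2
      have t1 : t ≤ 1 / G u := by
        rcases le_total 0 t with ht | ht
        · rw [h.hom _ _ ht] at hv1
          rw [le_div_iff₀ p1]; exact hv1
        · exact ht.trans (by positivity)
      have t2 : -(1 / G (-u)) ≤ t := by
        rcases le_total 0 t with ht | ht
        · have : 0 < 1 / G (-u) := by positivity
          linarith
        · have e : t • u = (-t) • (-u) := by simp
          rw [e, h.hom _ _ (by linarith)] at hv1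
          have : -t ≤ 1 / G (-u) := by rw [le_div_iff₀ p2]; exact hv1
          linarith
      have hs : t ∈ segment ℝ (-(1 / G (-u))) (1 / G u) := by
        rw [segment_eq_Icc (t2.trans t1)]; exact ⟨t2, t1⟩
      obtain ⟨a, b, ha, hb, hab, rfl⟩ := hs
      refine ⟨a, b, ha, hb, hab, ?_⟩
      simp only [smul_eq_mul]
      module
    · rintro ⟨a, b, ha, hb, hab, rfl⟩
      constructor
      · rw [hC]
        calc G (a • -(1 / G (-u)) • u + b • (1 / G u) • u)
            ≤ G (a • -(1 / G (-u)) • u) + G (b • (1 / G u) • u) := h.sub _ _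
          _ = a * (1 / G (-u) * G (-u)) + b * (1 / G u * G u) := by
              rw [h.hom _ _ ha, h.hom _ _ hb, h.hom (1 / G u) _ (by positivity)]
              have : (-(1 / G (-u))) • u = (1 / G (-u)) • (-u) := by simp
              rw [this, h.hom (1 / G (-u)) _ (by positivity)]
          _ = 1 := by
              rw [one_div_mul_cancel p2.ne', one_div_mul_cancel p1.ne', mul_one, mul_one, hab]
          _ ≤ 1 := le_rfl
      · apply Submodule.add_mem
        · exact Submodule.smul_mem _ _ (Submodule.smul_mem _ _ (Submodule.mem_span_singleton_self u))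
        · exact Submodule.smul_mem _ _ (Submodule.smul_mem _ _ (Submodule.mem_span_singleton_self u))
  rw [hset, hausdorffMeasure_segment, edist_dist, dist_eq_norm]
  congr 1
  have : -(1 / G (-u)) • u - (1 / G u) • u = -((1 / G u + 1 / G (-u)) • u) := by module
  rw [this, norm_neg, norm_smul, Real.norm_of_nonneg (by positivity)]

end Pool.Agent.H490R3.Sec
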