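import Mathlib
import Pool.Agent.H490R3.Sec.Plane

set_option autoImplicit false

open Set Filter Topology

namespace Pool.Agent.H490R3.Sec

noncomputable def e1 : E2 := EuclideanSpace.single 0 1
noncomputable def e2 : E2 := EuclideanSpace.single 1 1

/-- coordinates as linear maps -/
noncomputable def cX : E2 →ₗ[ℝ] ℝ := (EuclideanSpace.proj (0 : Fin 2) : E2 →L[ℝ] ℝ).toLinearMap
noncomputable def cY : E2 →ₗ[ℝ] ℝ := (EuclideanSpace.proj (1 : Fin 2) : E2 →L[ℝ] ℝ).toLinearMap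

@[simp] theorem cX_apply (v : E2) : cX v = v 0 := rfl
@[simp] theorem cY_apply (v : E2) : cY v = v 1 := rfl

theorem decomp (v : E2) : v = v 0 • e1 + v 1 • e2 := by
  ext i
  fin_cases i <;> simp [e1, e2]

theorem c0 : Continuous (fun v : E2 => v 0) := lin_cont cX
theorem c1 : Continuous (fun v : E2 => v 1) := lin_cont cY

/-- The glued gauge function. -/
noncomputable def GG (P1 M1 P2 M2 : ℝ → ℝ) (v : E2) : ℝ :=
  if |v 1| < |v 0| then |v 0| * (if 0 < v 0 then P1 (v 1 / v 0) else M1 (v 1 / v 0))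
  else |v 1| * (if 0 < v 1 then P2 (v 0 / v 1) else M2 (v 0 / v 1))

/-- what we know about the four functions -/
structure PM (n1 n2 P M : ℝ → ℝ) : Prop where
  cP : Continuous P
  cM : Continuous M
  lP : ∀ s, LS P s
  lM : ∀ s, LS M s
  pP : ∀ s, 0 < P s
  pM : ∀ s, 0 < M s
  sum : ∀ s, 1 / P s + 1 / M s = 1 / n1 s + 1 / n2 s
  left : ∀ s, s ≤ -(11/20) → P s = n2 s ∧ M s = n1 s
  right : ∀ s, 11/20 ≤ s → P s = n1 s ∧ M s = n2 s

section
variable {g : E2 → ℝ} (h : IsG g) {P1 M1 P2 M2 : ℝ → ℝ}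
  (H1 : PM (fun s => g (e1 + s • e2)) (fun s => g (-(e1 + s • e2))) P1 M1)
  (H2 : PM (fun s => g (e2 + s • e1)) (fun s => g (-(e2 + s • e1))) P2 M2)
include h H1 H2

omit h H1 H2 in
theorem GG_A {v : E2} (h1 : |v 1| < |v 0|) (h2 : 0 < v 0) :
    GG P1 M1 P2 M2 v = v 0 * P1 (v 1 / v 0) := by
  unfold GG; rw [if_pos h1, if_pos h2, abs_of_pos h2]

omit h H1 H2 in
theorem GG_B {v : E2} (h1 : |v 1| < |v 0|) (h2 : v 0 < 0) :
    GG P1 M1 P2 M2 v = (-v 0) * M1 (v 1 / v 0) := by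
  unfold GG; rw [if_pos h1, if_neg (not_lt.mpr h2.le), abs_of_neg h2]

omit h H1 H2 in
theorem GG_C {v : E2} (h1 : |v 0| ≤ |v 1|) (h2 : 0 < v 1) :
    GG P1 M1 P2 M2 v = v 1 * P2 (v 0 / v 1) := by
  unfold GG; rw [if_neg (not_lt.mpr h1), if_pos h2, abs_of_pos h2]

omit h H1 H2 in
theorem GG_D {v : E2} (h1 : |v 0| ≤ |v 1|) (h2 : v 1 < 0) :
    GG P1 M1 P2 M2 v = (-v 1) * M2 (v 0 / v 1) := by
  unfold GG; rw [if_neg (not_lt.mpr h1), if_neg (not_lt.mpr h2.le), abs_of_neg h2]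

omit H1 H2 in
theorem g_pos0 {v : E2} (h2 : 0 < v 0) : g v = v 0 * g (e1 + (v 1 / v 0) • e2) := by
  rw [← h.hom _ _ h2.le, smul_add, smul_smul, mul_div_cancel₀ _ h2.ne', ← decomp v]

omit H1 H2 in
theorem g_neg0 {v : E2} (h2 : v 0 < 0) : g v = (-v 0) * g (-(e1 + (v 1 / v 0) • e2)) := by
  rw [← h.hom _ _ (by linarith), smul_neg, neg_smul, neg_neg, smul_add, smul_smul,
    mul_div_cancel₀ _ h2.ne, ← decomp v]

omit H1 H2 in
theorem g_pos1 {v : E2} (h2 : 0 < v 1) : g v = v 1 * g (e2 + (v 0 / v 1) • e1) := by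
  rw [← h.hom _ _ h2.le, smul_add, smul_smul, mul_div_cancel₀ _ h2.ne', add_comm (v 1 • e2),
    ← decomp v]

omit H1 H2 in
theorem g_neg1 {v : E2} (h2 : v 1 < 0) : g v = (-v 1) * g (-(e2 + (v 0 / v 1) • e1)) := by
  rw [← h.hom _ _ (by linarith), smul_neg, neg_smul, neg_neg, smul_add, smul_smul,
    mul_div_cancel₀ _ h2.ne, add_comm (v 1 • e2), ← decomp v]

theorem GG_pos (v : E2) (hv : v ≠ 0) : 0 < GG P1 M1 P2 M2 v := by
  by_cases h1 : |v 1| < |v 0|
  · have h0 : v 0 ≠ 0 := by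
      intro h0; rw [h0, abs_zero] at h1; exact absurd h1 (not_lt.mpr (abs_nonneg _))
    rcases lt_or_gt_of_ne h0 with h2 | h2
    · rw [GG_B h1 h2]; exact mul_pos (by linarith) (H1.pM _)
    · rw [GG_A h1 h2]; exact mul_pos h2 (H1.pP _)
  · push Not at h1
    have h0 : v 1 ≠ 0 := by
      intro h0
      apply hv
      rw [h0, abs_zero] at h1
      have h3 : v 0 = 0 := abs_eq_zero.mp (le_antisymm h1 (abs_nonneg _))
      rw [decomp v, h0, h3]; simp
    rcases lt_or_gt_of_ne h0 with h2 | h2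
    · rw [GG_D h1 h2]; exact mul_pos (by linarith) (H2.pM _)
    · rw [GG_C h1 h2]; exact mul_pos h2 (H2.pP _)

omit h H1 H2 in
theorem GG_hom (t : ℝ) (v : E2) (ht : 0 ≤ t) :
    GG P1 M1 P2 M2 (t • v) = t * GG P1 M1 P2 M2 v := by
  rcases ht.eq_or_lt with h0 | h0
  · subst h0
    rw [zero_smul, zero_mul]
    unfold GG
    simp
  · unfold GG
    have a0 : (t • v) 0 = t * v 0 := rfl
    have a1 : (t • v) 1 = t * v 1 := rfl
    have b1 : |t * v 1| < |t * v 0| ↔ |v 1| < |v 0| := by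
      rw [abs_mul, abs_mul, abs_of_pos h0]
      exact mul_lt_mul_iff_right₀ h0
    have b2 : 0 < t * v 0 ↔ 0 < v 0 := mul_pos_iff_of_pos_left h0
    have b3 : 0 < t * v 1 ↔ 0 < v 1 := mul_pos_iff_of_pos_left h0
    have b4 : t * v 1 / (t * v 0) = v 1 / v 0 := mul_div_mul_left _ _ h0.ne'
    have b5 : t * v 0 / (t * v 1) = v 0 / v 1 := mul_div_mul_left _ _ h0.ne'
    rw [a0, a1]
    simp only [b1, b2, b3, b4, b5]
    rw [abs_mul, abs_mul, abs_of_pos h0]
    split_ifs <;> ring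

theorem GG_sum (v : E2) (hv : v ≠ 0) :
    1 / GG P1 M1 P2 M2 v + 1 / GG P1 M1 P2 M2 (-v) = 1 / g v + 1 / g (-v) := by
  have n0 : (-v) 0 = - v 0 := rfl
  have n1 : (-v) 1 = - v 1 := rfl
  have key : ∀ a p m q r : ℝ, 0 < a → 1 / p + 1 / m = 1 / q + 1 / r →
      1 / (a * p) + 1 / (a * m) = 1 / (a * q) + 1 / (a * r) := by
    intro a p m q r ha hh
    have : ∀ x : ℝ, 1 / (a * x) = (1 / a) * (1 / x) := fun x => by rw [one_div_mul_one_div]
    rw [this, this, this, this, ← mul_add, ← mul_add, hh]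
  by_cases h1 : |v 1| < |v 0|
  · have h1' : |(-v) 1| < |(-v) 0| := by rw [n0, n1, abs_neg, abs_neg]; exact h1
    have h0 : v 0 ≠ 0 := by
      intro h0; rw [h0, abs_zero] at h1; exact absurd h1 (not_lt.mpr (abs_nonneg _))
    have hq : (-v) 1 / (-v) 0 = v 1 / v 0 := by rw [n0, n1, neg_div_neg_eq]
    rcases lt_or_gt_of_ne h0 with h2 | h2
    · have h2' : 0 < (-v) 0 := by rw [n0]; linarith
      rw [GG_B h1 h2, GG_A h1' h2', g_neg0 h h2, g_pos0 h h2', hq, n0]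
      apply key _ _ _ _ _ (by linarith)
      have := H1.sum (v 1 / v 0)
      simp only at this
      linarith
    · have h2' : (-v) 0 < 0 := by rw [n0]; linarith
      rw [GG_A h1 h2, GG_B h1' h2', g_pos0 h h2, g_neg0 h h2', hq, n0, neg_neg]
      exact key _ _ _ _ _ h2 (H1.sum (v 1 / v 0))
  · push Not at h1
    have h1' : |(-v) 0| ≤ |(-v) 1| := by rw [n0, n1, abs_neg, abs_neg]; exact h1
    have h0 : v 1 ≠ 0 := by
      intro h0
      apply hv
      rw [h0, abs_zero] at h1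
      have h3 : v 0 = 0 := abs_eq_zero.mp (le_antisymm h1 (abs_nonneg _))
      rw [decomp v, h0, h3]; simp
    have hq : (-v) 0 / (-v) 1 = v 0 / v 1 := by rw [n0, n1, neg_div_neg_eq]
    rcases lt_or_gt_of_ne h0 with h2 | h2
    · have h2' : 0 < (-v) 1 := by rw [n1]; linarith
      rw [GG_D h1 h2, GG_C h1' h2', g_neg1 h h2, g_pos1 h h2', hq, n1]
      apply key _ _ _ _ _ (by linarith)
      have := H2.sum (v 0 / v 1)
      simp only at this
      linarith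
    · have h2' : (-v) 1 < 0 := by rw [n1]; linarith
      rw [GG_C h1 h2, GG_D h1' h2', g_pos1 h h2, g_neg1 h h2', hq, n1, neg_neg]
      exact key _ _ _ _ _ h2 (H2.sum (v 0 / v 1))

/-- near the main diagonal the glued function is `g` -/
theorem GG_diag {w : E2} (h1 : 11 / 20 * |w 0| < |w 1|) (h2 : 11 / 20 * |w 1| < |w 0|)
    (h3 : 0 < w 0 * w 1) : GG P1 M1 P2 M2 w = g w := by
  rcases pos_and_pos_or_neg_and_neg_of_mul_pos h3 with ⟨p0, p1⟩ | ⟨p0, p1⟩
  · rw [abs_of_pos p0, abs_of_pos p1] at h1 h2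
    by_cases hh : |w 1| < |w 0|
    · rw [GG_A hh p0, g_pos0 h p0, (H1.right _ (by rw [le_div_iff₀ p0]; linarith)).1]
    · push Not at hh
      rw [GG_C hh p1, g_pos1 h p1, (H2.right _ (by rw [le_div_iff₀ p1]; linarith)).1]
  · rw [abs_of_neg p0, abs_of_neg p1] at h1 h2
    by_cases hh : |w 1| < |w 0|
    · rw [GG_B hh p0, g_neg0 h p0, (H1.right _ (by rw [le_div_iff_of_neg p0]; linarith)).2]
    · push Not at hh
      rw [GG_D hh p1, g_neg1 h p1, (H2.right _ (by rw [le_div_iff_of_neg p1]; linarith)).2]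

theorem GG_anti {w : E2} (h1 : 11 / 20 * |w 0| < |w 1|) (h2 : 11 / 20 * |w 1| < |w 0|)
    (h3 : w 0 * w 1 < 0) : GG P1 M1 P2 M2 w = g (-w) := by
  have n0 : (-w) 0 = - w 0 := rfl
  have n1 : (-w) 1 = - w 1 := rfl
  have hq1 : (-w) 1 / (-w) 0 = w 1 / w 0 := by rw [n0, n1, neg_div_neg_eq]
  have hq2 : (-w) 0 / (-w) 1 = w 0 / w 1 := by rw [n0, n1, neg_div_neg_eq]
  rcases mul_neg_iff.mp h3 with ⟨p0, p1⟩ | ⟨p0, p1⟩
  · rw [abs_of_pos p0, abs_of_neg p1] at h1 h2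
    have p0' : (-w) 0 < 0 := by rw [n0]; linarith
    have p1' : 0 < (-w) 1 := by rw [n1]; linarith
    by_cases hh : |w 1| < |w 0|
    · rw [GG_A hh p0, g_neg0 h p0', (H1.left _ (by rw [div_le_iff₀ p0]; linarith)).1, hq1, n0,
        neg_neg]
    · push Not at hh
      rw [GG_D hh p1, g_pos1 h p1', (H2.left _ (by rw [div_le_iff_of_neg p1]; linarith)).2, hq2, n1]
  · rw [abs_of_neg p0, abs_of_pos p1] at h1 h2
    have p0' : 0 < (-w) 0 := by rw [n0]; linarith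
    have p1' : (-w) 1 < 0 := by rw [n1]; linarith
    by_cases hh : |w 1| < |w 0|
    · rw [GG_B hh p0, g_pos0 h p0', (H1.left _ (by rw [div_le_iff_of_neg p0]; linarith)).2, hq1, n0]
    · push Not at hh
      rw [GG_C hh p1, g_neg1 h p1', (H2.left _ (by rw [div_le_iff₀ p1]; linarith)).1, hq2, n1,
        neg_neg]

theorem GG_local (v : E2) (hv : v ≠ 0) :
    ContinuousAt (GG P1 M1 P2 M2) v ∧ LS2 (GG P1 M1 P2 M2) v := by
  have C0 := c0
  have C1 := c1
  rcases lt_trichotomy |v 1| |v 0| with h1 | h1 | h1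
  · have h0 : v 0 ≠ 0 := by
      intro h0; rw [h0, abs_zero] at h1; exact absurd h1 (not_lt.mpr (abs_nonneg _))
    have ev : ∀ᶠ w : E2 in 𝓝 v, |w 1| < |w 0| :=
      C1.abs.continuousAt.eventually_lt C0.abs.continuousAt h1
    rcases lt_or_gt_of_ne h0 with h2 | h2
    · refine region (-cX) (-cY) (by simp; exact h2) ?_ H1.cM (H1.lM _)
      filter_upwards [ev, C0.continuousAt.eventually (gt_mem_nhds h2)] with w e1 e2
      rw [GG_B e1 e2]
      simp
    · refine region cX cY (by simpa using h2) ?_ H1.cP (H1.lP _)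
      filter_upwards [ev, C0.continuousAt.eventually (lt_mem_nhds h2)] with w e1 e2
      rw [GG_A e1 e2]
      simp
  · -- diagonal
    have h0 : v 0 ≠ 0 := by
      intro h0
      apply hv
      rw [h0, abs_zero] at h1
      have h3 : v 1 = 0 := abs_eq_zero.mp h1
      rw [decomp v, h0, h3]; simp
    have h0' : 0 < |v 0| := abs_pos.mpr h0
    have ev1 : ∀ᶠ w : E2 in 𝓝 v, 11/20 * |w 0| < |w 1| :=
      (continuousAt_const.mul C0.abs.continuousAt).eventually_lt C1.abs.continuousAt (by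
        show 11/20 * |v 0| < |v 1|
        rw [h1]; linarith)
    have ev2 : ∀ᶠ w : E2 in 𝓝 v, 11/20 * |w 1| < |w 0| :=
      (continuousAt_const.mul C1.abs.continuousAt).eventually_lt C0.abs.continuousAt (by
        show 11/20 * |v 1| < |v 0|
        rw [h1]; linarith)
    have hprod : v 0 * v 1 ≠ 0 := by
      have : v 1 ≠ 0 := by
        rw [← abs_pos, h1]; exact h0'
      exact mul_ne_zero h0 this
    rcases lt_or_gt_of_ne hprod with h2 | h2
    · refine LS2.of_isG h.neg ?_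
      filter_upwards [ev1, ev2, (C0.mul C1).continuousAt.eventually (gt_mem_nhds h2)] with w a b c
      exact GG_anti h H1 H2 a b c
    · refine LS2.of_isG h ?_
      filter_upwards [ev1, ev2, (C0.mul C1).continuousAt.eventually (lt_mem_nhds h2)] with w a b c
      exact GG_diag h H1 H2 a b c
  · have h0 : v 1 ≠ 0 := by
      intro h0; rw [h0, abs_zero] at h1; exact absurd h1 (not_lt.mpr (abs_nonneg _))
    have ev : ∀ᶠ w : E2 in 𝓝 v, |w 0| < |w 1| :=
      C0.abs.continuousAt.eventually_lt C1.abs.continuousAt h1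
    rcases lt_or_gt_of_ne h0 with h2 | h2
    · refine region (-cY) (-cX) (by simp; exact h2) ?_ H2.cM (H2.lM _)
      filter_upwards [ev, C1.continuousAt.eventually (gt_mem_nhds h2)] with w e1 e2
      rw [GG_D e1.le e2]
      simp
    · refine region cY cX (by simpa using h2) ?_ H2.cP (H2.lP _)
      filter_upwards [ev, C1.continuousAt.eventually (lt_mem_nhds h2)] with w e1 e2
      rw [GG_C e1.le e2]
      simp

theorem GG_isG : IsG (GG P1 M1 P2 M2) := by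
  have hsub : ∀ v w, GG P1 M1 P2 M2 (v + w) ≤ GG P1 M1 P2 M2 v + GG P1 M1 P2 M2 w :=
    sub_of_LS2 GG_hom (GG_pos h H1 H2) (fun v hv => (GG_local h H1 H2 v hv).1)
      (fun v hv => (GG_local h H1 H2 v hv).2)
  refine ⟨hsub, GG_hom, GG_pos h H1 H2, ?_⟩
  have hconv : ConvexOn ℝ univ (GG P1 M1 P2 M2) := by
    refine ⟨convex_univ, ?_⟩
    intro x _ y _ a b ha hb hab
    calc GG P1 M1 P2 M2 (a • x + b • y) ≤ _ := hsub _ _
      _ = _ := by rw [GG_hom _ _ ha, GG_hom _ _ hb]; rfl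
  exact continuousOn_univ.mp (hconv.continuousOn isOpen_univ)

end

theorem glue {g : E2 → ℝ} (h : IsG g)
    (H1 : ZH (fun s => g (e1 + s • e2)) (fun s => g (-(e1 + s • e2))))
    (H2 : ZH (fun s => g (e2 + s • e1)) (fun s => g (-(e2 + s • e1)))) :
    ∃ G : E2 → ℝ, IsG G ∧ (∀ v, v ≠ 0 → 1 / G v + 1 / G (-v) = 1 / g v + 1 / g (-v)) ∧
      G (e1 + (4/5 : ℝ) • e2) = g (e1 + (4/5 : ℝ) • e2) ∧
      G (e1 + (-(4/5) : ℝ) • e2) = g (-(e1 + (-(4/5) : ℝ) • e2)) := by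
  obtain ⟨P1, M1, a1, a2, a3, a4, a5, a6, a7, a8, a9⟩ := zone H1
  obtain ⟨P2, M2, b1, b2, b3, b4, b5, b6, b7, b8, b9⟩ := zone H2
  have h1 : PM _ _ P1 M1 := ⟨a1, a2, a3, a4, a5, a6, a7, a8, a9⟩
  have h2 : PM _ _ P2 M2 := ⟨b1, b2, b3, b4, b5, b6, b7, b8, b9⟩
  have q0 : ∀ t : ℝ, (e1 + t • e2) 0 = 1 := fun t => by simp [e1, e2]
  have q1 : ∀ t : ℝ, (e1 + t • e2) 1 = t := fun t => by simp [e1, e2]
  refine ⟨GG P1 M1 P2 M2, GG_isG h h1 h2, GG_sum h h1 h2, ?_, ?_⟩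
  · apply GG_diag h h1 h2 <;> rw [q0, q1] <;> norm_num [abs_of_pos]
  · apply GG_anti h h1 h2 <;> rw [q0, q1] <;> norm_num [abs_of_pos]

end Pool.Agent.H490R3.Sec
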