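import Mathlib
import Pool.Agent.H490R3.Sec.Glue
import Pool.Agent.H490R3.Sec.Bodies

set_option autoImplicit false

open Set Filter Topology Metric MeasureTheory
open scoped Pointwise

namespace Pool.Agent.H490R3.Sec

/-- The gauge function of the octagon, in coordinates. -/
noncomputable def gf (x y : ℝ) : ℝ :=
  max (max (max (5/6 * x) (5/6 * y)) (max (-x) (-y)))
    (max (5/6 * (2/5 * |y| - x)) (5/6 * (2/5 * |x| - y)))

noncomputable def g0 (v : E2) : ℝ := gf (v 0) (v 1)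

theorem gf_le {x y c : ℝ} (h1 : 5/6 * x ≤ c) (h2 : 5/6 * y ≤ c) (h3 : -x ≤ c) (h4 : -y ≤ c)
    (h5 : 5/6 * (2/5 * |y| - x) ≤ c) (h6 : 5/6 * (2/5 * |x| - y) ≤ c) : gf x y ≤ c :=
  max_le (max_le (max_le h1 h2) (max_le h3 h4)) (max_le h5 h6)

theorem le_gf (x y : ℝ) : 5/6 * x ≤ gf x y ∧ 5/6 * y ≤ gf x y ∧ -x ≤ gf x y ∧ -y ≤ gf x y ∧
    5/6 * (2/5 * |y| - x) ≤ gf x y ∧ 5/6 * (2/5 * |x| - y) ≤ gf x y := by
  unfold gf
  refine ⟨?_, ?_, ?_, ?_, ?_, ?_⟩
  · exact le_trans (le_trans (le_max_left _ _) (le_max_left _ _)) (le_max_left _ _)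
  · exact le_trans (le_trans (le_max_right _ _) (le_max_left _ _)) (le_max_left _ _)
  · exact le_trans (le_trans (le_max_left _ _) (le_max_right _ _)) (le_max_left _ _)
  · exact le_trans (le_trans (le_max_right _ _) (le_max_right _ _)) (le_max_left _ _)
  · exact le_trans (le_max_left _ _) (le_max_right _ _)
  · exact le_trans (le_max_right _ _) (le_max_right _ _)

theorem g0_isG : IsG g0 where
  sub := fun v w => by
    obtain ⟨a1, a2, a3, a4, a5, a6⟩ := le_gf (v 0) (v 1)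
    obtain ⟨b1, b2, b3, b4, b5, b6⟩ := le_gf (w 0) (w 1)
    have c1 := abs_add_le (v 0) (w 0)
    have c2 := abs_add_le (v 1) (w 1)
    have d0 : (v + w) 0 = v 0 + w 0 := rfl
    have d1 : (v + w) 1 = v 1 + w 1 := rfl
    unfold g0
    rw [d0, d1]
    apply gf_le <;> linarith
  hom := fun t v ht => by
    have d0 : (t • v) 0 = t * v 0 := rfl
    have d1 : (t • v) 1 = t * v 1 := rfl
    have e1 : 5/6 * (t * v 0) = t * (5/6 * v 0) := by ring
    have e2 : 5/6 * (t * v 1) = t * (5/6 * v 1) := by ring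
    have e3 : -(t * v 0) = t * (-v 0) := by ring
    have e4 : -(t * v 1) = t * (-v 1) := by ring
    have e5 : 5/6 * (2/5 * (t * |v 1|) - t * v 0) = t * (5/6 * (2/5 * |v 1| - v 0)) := by ring
    have e6 : 5/6 * (2/5 * (t * |v 0|) - t * v 1) = t * (5/6 * (2/5 * |v 0| - v 1)) := by ring
    unfold g0 gf
    rw [d0, d1, mul_max_of_nonneg _ _ ht, mul_max_of_nonneg _ _ ht, mul_max_of_nonneg _ _ ht,
      mul_max_of_nonneg _ _ ht, mul_max_of_nonneg _ _ ht, abs_mul, abs_mul, abs_of_nonneg ht,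
      e1, e2, e3, e4, e5, e6]
  pos := fun v hv => by
    obtain ⟨a1, a2, a3, a4, a5, a6⟩ := le_gf (v 0) (v 1)
    show 0 < gf (v 0) (v 1)
    by_contra hcon
    push Not at hcon
    apply hv
    have h0 : v 0 = 0 := by linarith
    have h1 : v 1 = 0 := by linarith
    rw [decomp v, h0, h1]; simp
  cont := by
    have := c0
    have := c1
    unfold g0 gf
    fun_prop

/-- Gauge functions are determined by their unit balls. -/
theorem IsG.ext_ball {g G : E2 → ℝ} (h : IsG g) (H : IsG G) (hh : ∀ v, g v ≤ 1 ↔ G v ≤ 1) :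
    g = G := by
  have key : ∀ {g G : E2 → ℝ}, IsG g → IsG G → (∀ v, g v ≤ 1 ↔ G v ≤ 1) → ∀ v, G v ≤ g v := by
    intro g G h H hh v
    by_contra hcon
    push Not at hcon
    set t := (g v + G v) / 2 with ht
    have h0 := h.nonneg v
    have t0 : 0 < t := by linarith
    have e1 : g ((1 / t) • v) ≤ 1 := by
      rw [h.hom _ _ (by positivity), one_div, ← div_eq_inv_mul, div_le_one t0]
      linarith
    have e2 := (hh _).mp e1
    rw [H.hom _ _ (by positivity), one_div, ← div_eq_inv_mul, div_le_one t0] at e2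
    linarith
  funext v
  exact le_antisymm (key H h (fun v => (hh v).symm) v) (key h H hh v)

/-- The octagon as a body. -/
noncomputable def K0 : XX := ⟨g0_isG.body, g0_isG.interior_body⟩

theorem gauge_K0 : gauge (K0.1 : Set E2) = g0 :=
  (gauge_isG K0).ext_ball g0_isG fun v => by
    rw [← gauge_le_one K0]
    exact g0_isG.mem_body v

theorem ev (v : E2) {r : ℝ} (hr : g0 v = r) :
    ∀ᶠ K : XX in 𝓝 K0, |gauge (K.1 : Set E2) v - r| < 1/1000000 := by
  have h1 : Tendsto (fun K : XX => |gauge (K.1 : Set E2) v - r|) (𝓝 K0)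
      (𝓝 |gauge (K0.1 : Set E2) v - r|) :=
    (((cont_gauge v).sub continuous_const).abs).tendsto K0
  rw [gauge_K0, hr, sub_self, abs_zero] at h1
  exact h1.eventually (gt_mem_nhds (by norm_num))

theorem ev_lt (v : E2) {r : ℝ} (hr : g0 v < r) : ∀ᶠ K : XX in 𝓝 K0, gauge (K.1 : Set E2) v < r := by
  have h1 : Tendsto (fun K : XX => gauge (K.1 : Set E2) v) (𝓝 K0) (𝓝 (gauge (K0.1 : Set E2) v)) :=
    (cont_gauge v).tendsto K0
  rw [gauge_K0] at h1
  exact h1.eventually (gt_mem_nhds hr)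

theorem ev2 (f : ℝ → E2) (a r : ℝ) (h1 : g0 (f a) = r) (h2 : g0 (f (-a)) = r) (ha : 0 ≤ a) :
    ∀ᶠ K : XX in 𝓝 K0, ∀ s, |s| = a → |gauge (K.1 : Set E2) (f s) - r| < 1/1000000 := by
  filter_upwards [ev _ h1, ev _ h2] with K k1 k2 s hs
  rcases (abs_eq ha).mp hs with rfl | rfl
  · exact k1
  · exact k2

theorem ev2_lt (f : ℝ → E2) (a r : ℝ) (h1 : g0 (f a) < r) (h2 : g0 (f (-a)) < r) (ha : 0 ≤ a) :
    ∀ᶠ K : XX in 𝓝 K0, ∀ s, |s| = a → gauge (K.1 : Set E2) (f s) < r := by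
  filter_upwards [ev_lt _ h1, ev_lt _ h2] with K k1 k2 s hs
  rcases (abs_eq ha).mp hs with rfl | rfl
  · exact k1
  · exact k2

theorem v12 (s : ℝ) : g0 (e1 + s • e2) = gf 1 s := by
  unfold g0; congr 1 <;> simp [e1, e2]
theorem v12n (s : ℝ) : g0 (-(e1 + s • e2)) = gf (-1) (-s) := by
  unfold g0; congr 1 <;> simp [e1, e2]
theorem v21 (s : ℝ) : g0 (e2 + s • e1) = gf s 1 := by
  unfold g0; congr 1 <;> simp [e1, e2]
theorem v21n (s : ℝ) : g0 (-(e2 + s • e1)) = gf (-s) (-1) := by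
  unfold g0; congr 1 <;> simp [e1, e2]

theorem ev_ZH1 : ∀ᶠ K : XX in 𝓝 K0, ZH (fun s => gauge (K.1 : Set E2) (e1 + s • e2))
    (fun s => gauge (K.1 : Set E2) (-(e1 + s • e2))) := by
  filter_upwards [
    ev2 (fun s => e1 + s • e2) (3/5) (5/6) (by rw [v12]; unfold gf; norm_num [abs_of_pos, abs_of_neg, max_def]) (by rw [v12]; unfold gf; norm_num [abs_of_pos, abs_of_neg, max_def]) (by norm_num),
    ev2 (fun s => e1 + s • e2) (11/20) (5/6) (by rw [v12]; unfold gf; norm_num [abs_of_pos, abs_of_neg, max_def]) (by rw [v12]; unfold gf; norm_num [abs_of_pos, abs_of_neg, max_def]) (by norm_num),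
    ev2 (fun s => -(e1 + s • e2)) (9/20) 1 (by rw [v12n]; unfold gf; norm_num [abs_of_pos, abs_of_neg, max_def]) (by rw [v12n]; unfold gf; norm_num [abs_of_pos, abs_of_neg, max_def]) (by norm_num),
    ev2 (fun s => -(e1 + s • e2)) (1/2) 1 (by rw [v12n]; unfold gf; norm_num [abs_of_pos, abs_of_neg, max_def]) (by rw [v12n]; unfold gf; norm_num [abs_of_pos, abs_of_neg, max_def]) (by norm_num),
    ev2 (fun s => -(e1 + s • e2)) (11/20) (61/60) (by rw [v12n]; unfold gf; norm_num [abs_of_pos, abs_of_neg, max_def]) (by rw [v12n]; unfold gf; norm_num [abs_of_pos, abs_of_neg, max_def]) (by norm_num),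
    ev2 (fun s => -(e1 + s • e2)) (4/5) (11/10) (by rw [v12n]; unfold gf; norm_num [abs_of_pos, abs_of_neg, max_def]) (by rw [v12n]; unfold gf; norm_num [abs_of_pos, abs_of_neg, max_def]) (by norm_num),
    ev2_lt (fun s => e1 + s • e2) (4/5) (21/20) (by rw [v12]; unfold gf; norm_num [abs_of_pos, abs_of_neg, max_def]) (by rw [v12]; unfold gf; norm_num [abs_of_pos, abs_of_neg, max_def]) (by norm_num)]
    with K k1 k2 k3 k4 k5 k6 k7
  have hne : ∀ s : ℝ, e1 + s • e2 ≠ 0 := by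
    intro s h
    have : (e1 + s • e2) 0 = (0 : E2) 0 := by rw [h]
    simp [e1, e2] at this
  have hg := gauge_isG K
  refine ⟨hg.cont.comp (by fun_prop), hg.cont.comp (by fun_prop), hg.cvx _ _, ?_,
    fun s => hg.pos _ (hne s), fun s => hg.pos _ (neg_ne_zero.mpr (hne s)), k1, k2, k3, k4, k5, k6, k7⟩
  exact hg.neg.cvx _ _

theorem ev_ZH2 : ∀ᶠ K : XX in 𝓝 K0, ZH (fun s => gauge (K.1 : Set E2) (e2 + s • e1))
    (fun s => gauge (K.1 : Set E2) (-(e2 + s • e1))) := by
  filter_upwards [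
    ev2 (fun s => e2 + s • e1) (3/5) (5/6) (by rw [v21]; unfold gf; norm_num [abs_of_pos, abs_of_neg, max_def]) (by rw [v21]; unfold gf; norm_num [abs_of_pos, abs_of_neg, max_def]) (by norm_num),
    ev2 (fun s => e2 + s • e1) (11/20) (5/6) (by rw [v21]; unfold gf; norm_num [abs_of_pos, abs_of_neg, max_def]) (by rw [v21]; unfold gf; norm_num [abs_of_pos, abs_of_neg, max_def]) (by norm_num),
    ev2 (fun s => -(e2 + s • e1)) (9/20) 1 (by rw [v21n]; unfold gf; norm_num [abs_of_pos, abs_of_neg, max_def]) (by rw [v21n]; unfold gf; norm_num [abs_of_pos, abs_of_neg, max_def]) (by norm_num),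
    ev2 (fun s => -(e2 + s • e1)) (1/2) 1 (by rw [v21n]; unfold gf; norm_num [abs_of_pos, abs_of_neg, max_def]) (by rw [v21n]; unfold gf; norm_num [abs_of_pos, abs_of_neg, max_def]) (by norm_num),
    ev2 (fun s => -(e2 + s • e1)) (11/20) (61/60) (by rw [v21n]; unfold gf; norm_num [abs_of_pos, abs_of_neg, max_def]) (by rw [v21n]; unfold gf; norm_num [abs_of_pos, abs_of_neg, max_def]) (by norm_num),
    ev2 (fun s => -(e2 + s • e1)) (4/5) (11/10) (by rw [v21n]; unfold gf; norm_num [abs_of_pos, abs_of_neg, max_def]) (by rw [v21n]; unfold gf; norm_num [abs_of_pos, abs_of_neg, max_def]) (by norm_num),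
    ev2_lt (fun s => e2 + s • e1) (4/5) (21/20) (by rw [v21]; unfold gf; norm_num [abs_of_pos, abs_of_neg, max_def]) (by rw [v21]; unfold gf; norm_num [abs_of_pos, abs_of_neg, max_def]) (by norm_num)]
    with K k1 k2 k3 k4 k5 k6 k7
  have hne : ∀ s : ℝ, e2 + s • e1 ≠ 0 := by
    intro s h
    have : (e2 + s • e1) 1 = (0 : E2) 1 := by rw [h]
    simp [e1, e2] at this
  have hg := gauge_isG K
  refine ⟨hg.cont.comp (by fun_prop), hg.cont.comp (by fun_prop), hg.cvx _ _, ?_,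
    fun s => hg.pos _ (hne s), fun s => hg.pos _ (neg_ne_zero.mpr (hne s)), k1, k2, k3, k4, k5, k6, k7⟩
  exact hg.neg.cvx _ _

/-- The set of bodies not determined by the central chord function. -/
def Bad : Set XX := {K | ∃ L : ConvexBody E2, (0 : E2) ∈ interior (L : Set E2) ∧
  (L : Set E2) ≠ (K.1 : Set E2) ∧ (L : Set E2) ≠ -(K.1 : Set E2) ∧
  ∀ u : E2, u ≠ 0 → Measure.hausdorffMeasure (1 : ℝ) ((L : Set E2) ∩ (Submodule.span ℝ {u} : Set E2)) =
    Measure.hausdorffMeasure (1 : ℝ) ((K.1 : Set E2) ∩ (Submodule.span ℝ {u} : Set E2))}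

theorem ev_bad : ∀ᶠ K : XX in 𝓝 K0, K ∈ Bad := by
  filter_upwards [ev_ZH1, ev_ZH2] with K H1 H2
  have hg := gauge_isG K
  obtain ⟨G, hG, hsum, hp, hm⟩ := glue hg H1 H2
  refine ⟨hG.body, hG.interior_body, ?_, ?_, ?_⟩
  · intro heq
    have hfun : G = gauge (K.1 : Set E2) := hG.ext_ball hg fun v => by
      rw [← gauge_le_one K, ← heq]
      exact (hG.mem_body v).symm
    have h1 := (abs_lt.mp (H1.b4 (-(4/5)) (by norm_num [abs_of_pos]))).1
    have h2 := H1.d1 (-(4/5)) (by norm_num [abs_of_pos])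
    rw [hfun] at hm
    linarith
  · intro heq
    have hfun : G = (fun v => gauge (K.1 : Set E2) (-v)) := hG.ext_ball hg.neg fun v => by
      show G v ≤ 1 ↔ gauge (K.1 : Set E2) (-v) ≤ 1
      rw [← gauge_le_one K, ← Set.mem_neg, ← heq]
      exact (hG.mem_body v).symm
    have h1 := (abs_lt.mp (H1.b4 (4/5) (by norm_num [abs_of_pos]))).1
    have h2 := H1.d1 (4/5) (by norm_num [abs_of_pos])
    rw [hfun] at hp
    simp only at hp
    linarith
  · intro u hu
    rw [chord hG _ hG.mem_body u hu, chord hg _ (gauge_le_one K) u hu, hsum u hu]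

theorem not_meagre : ¬ IsMeagre Bad := by
  intro hmeag
  have : CompleteSpace (ConvexBody E2) := completeCB
  have : BaireSpace XX := (isOpen_mem_interior (0 : E2)).baireSpace
  have hd : Dense Badᶜ := dense_of_mem_residual hmeag
  obtain ⟨U, hU, hUo, hK⟩ := _root_.eventually_nhds_iff.mp ev_bad
  obtain ⟨K, hK1, hK2⟩ := hd.inter_open_nonempty U hUo ⟨K0, hK⟩
  exact hK2 (hU K hK1)

end Pool.Agent.H490R3.Sec
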